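import Pool.Agent.Lib.MP_e326dc_an.Defs

/-!
# MP_e326dc_an : free compact group actions on systems, quotients, Lie steps, Lie chains
-/

open Filter Topology

namespace MP_e326dc_an

/-- `g` moves every point by an element of `W` (`W` a neighbourhood of the diagonal, in the filter
`𝓝ˢ (Set.diagonal X)`, which is the uniformity of a compact Hausdorff space). -/
def Near {X : Type*} (W : Set (X × X)) (g : X → X) : Prop := ∀ x, (x, g x) ∈ W

/-- A free, jointly continuous action of the abelian group `C` on the space of `P`, commuting with the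
transformation. -/
structure GAct (C : Type) [CommGroup C] [TopologicalSpace C] (P : DSys) where
  hom : C →* (P.X ≃ₜ P.X)
  cont : Continuous fun q : C × P.X => hom q.1 q.2
  comm : ∀ c x, hom c (P.T x) = P.T (hom c x)
  free : ∀ c x, hom c x = x → c = 1

namespace GAct

variable {C : Type} [CommGroup C] [TopologicalSpace C] {P : DSys} (a : GAct C P)

lemma hom_one (x : P.X) : a.hom 1 x = x := by simp [map_one]

lemma hom_mul (c d : C) (x : P.X) : a.hom (c * d) x = a.hom c (a.hom d x) := by
  rw [map_mul]; rfl

lemma hom_inv_hom (c : C) (x : P.X) : a.hom c⁻¹ (a.hom c x) = x := by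
  rw [← a.hom_mul, inv_mul_cancel, a.hom_one]

lemma hom_hom_inv (c : C) (x : P.X) : a.hom c (a.hom c⁻¹ x) = x := by
  rw [← a.hom_mul, mul_inv_cancel, a.hom_one]

/-- the orbit relation -/
def setoid : Setoid P.X where
  r x y := ∃ c, a.hom c x = y
  iseqv :=
    { refl := fun x => ⟨1, a.hom_one x⟩
      symm := by
        rintro x y ⟨c, rfl⟩
        exact ⟨c⁻¹, a.hom_inv_hom c x⟩
      trans := by
        rintro x y z ⟨c, rfl⟩ ⟨d, rfl⟩
        exact ⟨d * c, a.hom_mul d c x⟩ }

/-- the projection to the orbit space -/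
def proj (x : P.X) : Quotient a.setoid := Quotient.mk a.setoid x

lemma proj_eq_iff (x y : P.X) : a.proj x = a.proj y ↔ ∃ c, a.hom c x = y := Quotient.eq (r := a.setoid)

lemma proj_hom (c : C) (x : P.X) : a.proj (a.hom c x) = a.proj x :=
  ((a.proj_eq_iff _ _).2 ⟨c, rfl⟩).symm

lemma isOpenQuotientMap_proj : IsOpenQuotientMap a.proj where
  surjective := Quotient.mk_surjective
  continuous := continuous_quotient_mk'
  isOpenMap := by
    intro U hU
    change IsOpen (a.proj ⁻¹' (a.proj '' U))
    have : a.proj ⁻¹' (a.proj '' U) = ⋃ c : C, (a.hom c) '' U := by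
      ext y
      simp only [Set.mem_preimage, Set.mem_image, Set.mem_iUnion]
      constructor
      · rintro ⟨x, hx, h⟩
        obtain ⟨c, hc⟩ := (a.proj_eq_iff x y).1 h
        exact ⟨c, x, hx, hc⟩
      · rintro ⟨c, x, hx, rfl⟩
        exact ⟨x, hx, (a.proj_hom c x).symm⟩
    rw [this]
    exact isOpen_iUnion fun c => (a.hom c).isOpenMap U hU

instance t2_quot [CompactSpace C] : T2Space (Quotient a.setoid) := by
  rw [t2Space_iff_of_isOpenQuotientMap a.isOpenQuotientMap_proj]
  have : {q : P.X × P.X | a.proj q.1 = a.proj q.2} =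
      Set.range (fun r : C × P.X => (r.2, a.hom r.1 r.2)) := by
    ext ⟨x, y⟩
    simp only [Set.mem_ofPred_eq, Set.mem_range, Prod.exists, Prod.mk.injEq]
    rw [a.proj_eq_iff]
    constructor
    · rintro ⟨c, hc⟩
      exact ⟨c, x, rfl, hc⟩
    · rintro ⟨c, x', rfl, hc⟩
      exact ⟨c, hc⟩
  rw [this]
  exact (isCompact_range (continuous_snd.prodMk a.cont)).isClosed

/-- A homeomorphism commuting with the action descends to the orbit space. -/
def desc (g : P.X ≃ₜ P.X) (hg : ∀ c x, a.hom c (g x) = g (a.hom c x)) :
    Quotient a.setoid ≃ₜ Quotient a.setoid where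
  toFun := Quotient.map g (by
    rintro x y ⟨c, rfl⟩
    exact ⟨c, hg c x⟩)
  invFun := Quotient.map g.symm (by
    rintro x y ⟨c, rfl⟩
    refine ⟨c, ?_⟩
    rw [Homeomorph.eq_symm_apply, ← hg, Homeomorph.apply_symm_apply])
  left_inv := by
    rintro ⟨x⟩
    exact congrArg a.proj (g.symm_apply_apply x)
  right_inv := by
    rintro ⟨x⟩
    exact congrArg a.proj (g.apply_symm_apply x)
  continuous_toFun := Continuous.quotient_map' g.continuous _
  continuous_invFun := Continuous.quotient_map' g.symm.continuous _

@[simp] lemma desc_proj (g : P.X ≃ₜ P.X) (hg : ∀ c x, a.hom c (g x) = g (a.hom c x)) (x : P.X) :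
    a.desc g hg (a.proj x) = a.proj (g x) := rfl

/-- the orbit space as a system -/
def quot [CompactSpace C] : DSys :=
  haveI : CompactSpace (Quotient a.setoid) := Quotient.compactSpace
  haveI := a.t2_quot
  { X := Quotient a.setoid
    T := a.desc P.T a.comm }

/-- the projection to the orbit space as a factor map -/
def fac [CompactSpace C] : DFactor P a.quot where
  π := a.proj
  cont := a.isOpenQuotientMap_proj.continuous
  surj := a.isOpenQuotientMap_proj.surjective
  equi _ := rfl

lemma fac_eq_iff [CompactSpace C] (x y : P.X) : a.fac.π x = a.fac.π y ↔ ∃ c, a.hom c x = y :=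
  a.proj_eq_iff x y

lemma isOpenQuotientMap_fac [CompactSpace C] : IsOpenQuotientMap a.fac.π := a.isOpenQuotientMap_proj

/-- restriction of the action to a subgroup -/
def restr (K : Subgroup C) : GAct K P where
  hom := a.hom.comp K.subtype
  cont := a.cont.comp ((continuous_subtype_val.comp continuous_fst).prodMk continuous_snd)
  comm _ x := a.comm _ x
  free _ x h := Subtype.ext (a.free _ x h)

end GAct

/-- `C` has level `j`: vertex cubes of dimension `j` by elements of `C`, none of dimension `j+1`. -/
structure GAct.Level {C : Type} [CommGroup C] [TopologicalSpace C] {P : DSys} (a : GAct C P)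
    (j : ℕ) : Prop where
  mem : ∀ c x, (vcube x (a.hom c x) : Finset (Fin j) → P.X) ∈ Cub P.T (Fin j)
  not_mem : ∀ c x, (vcube x (a.hom c x) : Finset (Fin (j + 1)) → P.X) ∈ Cub P.T (Fin (j + 1)) →
    c = 1

/-- A Lie step of level `l` : `P` is minimal of order `l ≥ 1`, `B` is a closed subgroup of the circle
acting on `P` by elements of the structure group `A_l(P)`, and `P'` is the orbit space `P / B`. -/
structure LieStep (P P' : DSys) (l : ℕ) where
  B : Subgroup Circle
  closed : IsClosed (B : Set Circle)
  act : GAct B P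
  fac : DFactor P P'
  fib : ∀ x y, fac.π x = fac.π y ↔ ∃ b : B, act.hom b x = y
  pos : 1 ≤ l
  ord : P.Ord l
  str : ∀ b : B, IsStr P.T l (act.hom b)

/-- `f : P → Z` is a composition of Lie steps of levels `> j`. -/
inductive LieChain (j : ℕ) (Z : DSys) : (P : DSys) → (P.X → Z.X) → Prop
  | nil : LieChain j Z Z id
  | cons {P P' : DSys} {l : ℕ} (hl : j < l) (L : LieStep P P' l) {f : P'.X → Z.X}
      (h : LieChain j Z P' f) : LieChain j Z P (f ∘ L.fac.π)

/-- Lie towers : chains of Lie steps down to a point. -/
inductive LieTower : DSys → Prop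
  | point {Z : DSys} (h : Z.Ord 0) : LieTower Z
  | step {P P' : DSys} {l : ℕ} (L : LieStep P P' l) (h : LieTower P') : LieTower P

end MP_e326dc_an
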