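import Mathlib
import Pool.Agent.Lib.MP_e326dc_an.Defs
import Pool.Agent.Lib.MP_e326dc_an.Walsh.Ulim
import Pool.Agent.Lib.MP_e326dc_an.Walsh.W4

set_option autoImplicit false

/-!
# MP_e326dc_an : the coboundary lemma (CL)

A continuous function on the cubes of a minimal system, additive under gluing, is the alternating sum of a
continuous function.
-/

open Filter Topology

namespace MP_e326dc_an

/-! ### invariant means -/

/-- a translation invariant mean on the bounded functions on `ℤ^κ` -/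
structure CbMean (κ : Type*) where
  M : ((κ → ℤ) → ℝ) → ℝ
  sub : ∀ f g : (κ → ℤ) → ℝ, (∃ C : ℝ, ∀ k, |f k| ≤ C) → (∃ C : ℝ, ∀ k, |g k| ≤ C) →
    M (fun k => f k - g k) = M f - M g
  const : ∀ c : ℝ, M (fun _ => c) = c
  bound : ∀ (f : (κ → ℤ) → ℝ) (C : ℝ), (∀ k, |f k| ≤ C) → |M f| ≤ C
  shift : ∀ (f : (κ → ℤ) → ℝ) (n : κ → ℤ), (∃ C : ℝ, ∀ k, |f k| ≤ C) → M (fun k => f (k + n)) = M f

theorem cb_avg_sub {α : Type*} (s : Finset α) (f g : α → ℝ) :
    avg s (fun a => f a - g a) = avg s f - avg s g := by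
  simp only [avg, Finset.sum_sub_distrib, smul_sub]

theorem cb_avg_abs {α : Type*} (s : Finset α) (f : α → ℝ) (C : ℝ) (hC : 0 ≤ C) (h : ∀ a, |f a| ≤ C) :
    |avg s f| ≤ C := by
  simp only [avg, smul_eq_mul, abs_mul, abs_inv, Nat.abs_cast]
  rcases Nat.eq_zero_or_pos s.card with h0 | h0
  · rw [h0]; simpa using hC
  · have h1 : (0 : ℝ) < s.card := by exact_mod_cast h0
    rw [inv_mul_le_iff₀ h1]
    calc |∑ i ∈ s, f i| ≤ ∑ i ∈ s, |f i| := Finset.abs_sum_le_sum_abs _ _
      _ ≤ ∑ _i ∈ s, C := Finset.sum_le_sum fun i _ => h i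
      _ = s.card * C := by rw [Finset.sum_const, nsmul_eq_mul]

/-- averages over large cubes -/
noncomputable def cbAv (d : ℕ) (f : (Fin d → ℤ) → ℝ) (N : ℕ) : ℝ :=
  avg (box (0 : Fin d → ℤ) fun _ => N + 1) f

theorem cbAv_BR (d : ℕ) {f : (Fin d → ℤ) → ℝ} (hf : ∃ C : ℝ, ∀ k, |f k| ≤ C) : Walsh.BR (cbAv d f) := by
  obtain ⟨C, hC⟩ := hf
  exact ⟨C, fun N => cb_avg_abs _ _ C ((abs_nonneg _).trans (hC 0)) hC⟩

/-- the mean on `ℤ^d` -/
noncomputable def cbMean0 (d : ℕ) : CbMean (Fin d) where
  M f := Walsh.ulim (cbAv d f)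
  sub f g hf hg := by
    rw [← Walsh.ulim_sub (cbAv_BR d hf) (cbAv_BR d hg)]
    congr 1
    funext N
    exact cb_avg_sub _ f g
  const c := by
    refine Walsh.ulim_eq ?_
    have e : cbAv d (fun _ => c) = fun _ => c := by
      funext N
      simp only [cbAv, avg, Finset.sum_const, nsmul_eq_mul, smul_eq_mul]
      have h : (0 : ℝ) < (box (0 : Fin d → ℤ) fun _ => N + 1).card := by
        rw [Walsh.w4_card_box]
        exact Finset.prod_pos fun i _ => by positivity
      rw [← mul_assoc, inv_mul_cancel₀ h.ne', one_mul]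
    rw [e]
    exact tendsto_const_nhds
  bound f C hC := by
    have h1 : ∀ N, |cbAv d f N| ≤ C := fun N => cb_avg_abs _ _ C ((abs_nonneg _).trans (hC 0)) hC
    have h2 := (cbAv_BR d ⟨C, hC⟩).tendsto
    exact le_of_tendsto h2.abs (Eventually.of_forall h1)
  shift f n hf := by
    obtain ⟨C, hC⟩ := hf
    have hC0 : 0 ≤ C := (abs_nonneg _).trans (hC 0)
    refine Walsh.ulim_eq ?_
    have h1 := (cbAv_BR d ⟨C, hC⟩).tendsto
    have h2 : Tendsto (fun N => cbAv d (fun k => f (k + n)) N - cbAv d f N)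
        (hyperfilter ℕ : Filter ℕ) (𝓝 0) := by
      refine Tendsto.mono_left ?_ Nat.hyperfilter_le_atTop
      have h3 : Tendsto (fun N : ℕ => 2 * C * ∑ i : Fin d, |(n i : ℝ)| / ((N + 1 : ℕ) : ℝ)) atTop (𝓝 0) := by
        have h4 : ∀ i : Fin d, Tendsto (fun N : ℕ => |(n i : ℝ)| / ((N + 1 : ℕ) : ℝ)) atTop (𝓝 0) := fun i =>
          (tendsto_const_nhds.div_atTop (tendsto_natCast_atTop_atTop.comp (tendsto_add_atTop_nat 1)))
        have h5 := (tendsto_finsetSum (Finset.univ : Finset (Fin d)) fun i _ => h4 i).const_mul (2 * C)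
        simpa using h5
      refine squeeze_zero_norm (fun N => ?_) h3
      rw [Real.norm_eq_abs]
      exact Walsh.avg_shift (0 : Fin d → ℤ) (fun _ => N + 1) (fun i => Nat.succ_le_succ (Nat.zero_le N)) n f C hC
    have h6 := h1.add h2
    rw [add_zero] at h6
    refine h6.congr fun N => ?_
    ring

/-- the mean on `ℤ^κ` -/
noncomputable def cbMean (κ : Type*) [Fintype κ] : CbMean κ where
  M f := (cbMean0 (Fintype.card κ)).M fun k => f fun i => k (Fintype.equivFin κ i)
  sub f g hf hg := by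
    obtain ⟨C, hC⟩ := hf
    obtain ⟨D, hD⟩ := hg
    exact (cbMean0 _).sub _ _ ⟨C, fun k => hC _⟩ ⟨D, fun k => hD _⟩
  const c := (cbMean0 _).const c
  bound f C hC := (cbMean0 _).bound _ C fun k => hC _
  shift f n hf := by
    obtain ⟨C, hC⟩ := hf
    have h := (cbMean0 (Fintype.card κ)).shift (fun k => f fun i => k (Fintype.equivFin κ i))
      (fun j => n ((Fintype.equivFin κ).symm j)) ⟨C, fun k => hC _⟩
    rw [← h]
    congr 1
    funext k
    refine congrArg f (funext fun i => ?_)
    simp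

/-! ### additive functions are alternating sums along orbits -/

section seq
variable {ι : Type*} [Fintype ι] [DecidableEq ι]

omit [Fintype ι] in
theorem cb_subdiv (μ : CbMean ι) (D : ℤ → (ι → ℤ) → ℝ) (C : ℝ) (hC : ∀ t k, |D t k| ≤ C)
    (hD : ∀ (i : ι) (h : ι → ℤ) (m t : ℤ), D t (Function.update h i (h i + m)) =
      D t h + D (t + h i) (Function.update h i m)) (J : Finset ι) :
    ∀ (t : ℤ) (n : ι → ℤ), D t n = ∑ S ∈ J.powerset, (-1 : ℝ) ^ S.card *
      μ.M fun k => D (t + ∑ i ∈ S, n i) fun i => if i ∈ J then k i else n i := by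
  induction J using Finset.induction_on with
  | empty =>
    intro t n
    simp [μ.const]
  | insert a J ha ih =>
    intro t n
    rw [Finset.sum_powerset_insert ha, ← Finset.sum_add_distrib, ih t n]
    refine Finset.sum_congr rfl fun S hS => ?_
    have haS : a ∉ S := fun h => ha (Finset.mem_powerset.1 hS h)
    rw [Finset.card_insert_of_notMem haS, Finset.sum_insert haS]
    set t' : ℤ := t + ∑ i ∈ S, n i with ht'
    have e1 : t + (n a + ∑ i ∈ S, n i) = t' + n a := by rw [ht']; ring
    rw [e1, pow_succ]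
    have key : (μ.M fun k => D t' fun i => if i ∈ J then k i else n i) =
        (μ.M fun k => D t' fun i => if i ∈ insert a J then k i else n i) -
          μ.M fun k => D (t' + n a) fun i => if i ∈ insert a J then k i else n i := by
      rw [← μ.shift (fun k => D (t' + n a) fun i => if i ∈ insert a J then k i else n i)
        (Pi.single a (-(n a))) ⟨C, fun k => hC _ _⟩, ← μ.sub _ _ ⟨C, fun k => hC _ _⟩ ⟨C, fun k => hC _ _⟩]
      congr 1
      funext k
      have h1 := hD a (fun i => if i ∈ J then k i else n i) (k a - n a) t'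
      simp only [if_neg ha] at h1
      have e2 : Function.update (fun i => if i ∈ J then k i else n i) a (n a + (k a - n a)) =
          fun i => if i ∈ insert a J then k i else n i := by
        funext i
        by_cases hi : i = a
        · subst hi
          simp
        · rw [Function.update_of_ne hi]
          simp only [Finset.mem_insert, hi, false_or]
      have e3 : Function.update (fun i => if i ∈ J then k i else n i) a (k a - n a) =
          fun i => if i ∈ insert a J then (k + Pi.single a (-(n a)) : ι → ℤ) i else n i := by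
        funext i
        by_cases hi : i = a
        · subst hi
          simp only [Function.update_self, Finset.mem_insert, true_or, if_true, Pi.add_apply, Pi.single_eq_same]
          ring
        · rw [Function.update_of_ne hi]
          simp only [Finset.mem_insert, hi, false_or, Pi.add_apply, Pi.single_eq_of_ne hi, add_zero]
      rw [e2, e3] at h1
      rw [h1]
      ring
    rw [key]
    ring

/-- a bounded sequence with constant differences is constant -/
theorem cb_const_diff {b : ℤ → ℝ} {C κ : ℝ} (hb : ∀ t, |b t| ≤ C) (h : ∀ t, b t - b (t + 1) = κ) : κ = 0 := by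
  have h1 : ∀ n : ℕ, b 0 - b n = n * κ := by
    intro n
    induction n with
    | zero => simp
    | succ n ih =>
      have := h n
      push_cast at this ⊢
      linarith
  by_contra hκ
  obtain ⟨n, hn⟩ := exists_nat_gt (2 * C / |κ|)
  have hκ' : 0 < |κ| := abs_pos.2 hκ
  rw [div_lt_iff₀ hκ'] at hn
  have h2 : |b 0 - b n| ≤ 2 * C := (abs_sub _ _).trans (by linarith [hb 0, hb n])
  rw [h1 n, abs_mul, Nat.abs_cast] at h2
  linarith

omit [Fintype ι] in
theorem cb_step (J : Finset ι) : ∀ (b : ℤ → ℝ) (C : ℝ), (∀ t, |b t| ≤ C) →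
    (∀ t, ∑ S ∈ J.powerset, (-1 : ℝ) ^ S.card * b (t + S.card) = 0) → ∀ t, b (t + 1) = b t := by
  induction J using Finset.induction_on with
  | empty =>
    intro b C _ h t
    have h0 : ∀ t, b t = 0 := by
      intro t
      have := h t
      simpa using this
    rw [h0, h0]
  | insert a J ha ih =>
    intro b C hb h t
    have h1 := ih (fun t => b t - b (t + 1)) (2 * C) (fun t => (abs_sub _ _).trans (by linarith [hb t, hb (t + 1)])) (by
      intro t
      have h2 := h t
      rw [Finset.sum_powerset_insert ha, ← Finset.sum_add_distrib] at h2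
      rw [← h2]
      refine Finset.sum_congr rfl fun S hS => ?_
      have haS : a ∉ S := fun h => ha (Finset.mem_powerset.1 hS h)
      rw [Finset.card_insert_of_notMem haS, pow_succ]
      push_cast
      rw [add_assoc]
      ring)
    have h3 : ∀ n : ℕ, b n - b (n + 1) = b 0 - b 1 := by
      intro n
      induction n with
      | zero => norm_num
      | succ n ihn =>
        have := h1 n
        push_cast
        linarith
    have h4 : ∀ n : ℕ, b (-n) - b (-n + 1) = b 0 - b 1 := by
      intro n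
      induction n with
      | zero => norm_num
      | succ n ihn =>
        have := h1 (-((n + 1 : ℕ) : ℤ))
        have e : -((n + 1 : ℕ) : ℤ) + 1 = -(n : ℤ) := by push_cast; ring
        rw [e] at this ⊢
        linarith
    have h5 : ∀ t : ℤ, b t - b (t + 1) = b 0 - b 1 := by
      intro t
      obtain ⟨n, rfl | rfl⟩ := t.eq_nat_or_neg
      · exact h3 n
      · exact h4 n
    have h6 := cb_const_diff hb h5
    have h7 := h5 t
    linarith

/-- bounded sequences with vanishing alternating sums are constant -/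
theorem cb_const {b : ℤ → ℝ} {C : ℝ} (hb : ∀ t, |b t| ≤ C)
    (h : ∀ (t : ℤ) (n : ι → ℤ), ∑ S : Finset ι, (-1 : ℝ) ^ S.card * b (t + ∑ i ∈ S, n i) = 0) (t : ℤ) :
    b t = b 0 := by
  have h1 := cb_step (Finset.univ : Finset ι) b C hb (by
    intro t
    have h2 := h t fun _ => 1
    rw [Finset.powerset_univ]
    simpa using h2)
  obtain ⟨n, rfl | rfl⟩ := t.eq_nat_or_neg
  · induction n with
    | zero => simp
    | succ n ih =>
      push_cast
      rw [h1, ih]
  · induction n with
    | zero => simp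
    | succ n ih =>
      have h3 := h1 (-((n + 1 : ℕ) : ℤ))
      have e : -((n + 1 : ℕ) : ℤ) + 1 = -(n : ℤ) := by push_cast; ring
      rw [e] at h3
      rw [← h3, ih]

end seq

/-! ### the coboundary lemma -/

/-- the alternating sum of `φ` over the vertices of a cube -/
noncomputable def altSum {ι : Type*} [Fintype ι] {X : Type*} (φ : X → ℝ) (c : Finset ι → X) : ℝ :=
  ∑ S : Finset ι, (-1 : ℝ) ^ S.card * φ (c S)

/-- additivity of a cube function under gluing of cubes -/
def AddCub {ι : Type*} [DecidableEq ι] {X : Type*} [TopologicalSpace X] (T : X ≃ₜ X)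
    (δ : (Finset ι → X) → ℝ) : Prop :=
  ∀ (i : ι), ∀ c ∈ Cub T ι, ∀ c' ∈ Cub T ι, (∀ A, i ∉ A → c (insert i A) = c' A) →
    δ (glue i c c') = δ c + δ c'

section cobd
variable {X : Type*} [TopologicalSpace X] {T : X ≃ₜ X}
variable {ι : Type*}

theorem cb_dcube_mem (T : X ≃ₜ X) (t : ℤ) (n : ι → ℤ) (x : X) : dcube T t n x ∈ Cub T ι :=
  subset_closure ⟨t, n, x, rfl⟩

theorem cb_dcube_shift (T : X ≃ₜ X) (t : ℤ) (n : ι → ℤ) (x : X) :
    dcube T t n x = dcube T 0 n ((T ^ t) x) := by
  funext S
  simp only [dcube, expo, zero_add]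
  rw [add_comm, zpow_add]
  rfl

theorem cb_dcube_cont (T : X ≃ₜ X) (t : ℤ) (n : ι → ℤ) : Continuous (dcube T t n) :=
  continuous_pi fun S => (Homeomorph.continuous (T ^ expo t n S))

theorem altSum_cont [Fintype ι] {φ : X → ℝ} (hφ : Continuous φ) :
    Continuous (altSum φ : (Finset ι → X) → ℝ) :=
  continuous_finsetSum _ fun S _ => (hφ.comp (continuous_apply S)).const_mul _

variable [Fintype ι] [DecidableEq ι]

omit [DecidableEq ι] in
theorem cb_sum_neg_one [Nonempty ι] : ∑ S : Finset ι, (-1 : ℝ) ^ S.card = 0 := by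
  have h := Finset.sum_powerset_neg_one_pow_card_of_nonempty (Finset.univ_nonempty (α := ι))
  rw [Finset.powerset_univ] at h
  have h' := congrArg (fun z : ℤ => (z : ℝ)) h
  push_cast at h'
  exact h'

variable [CompactSpace X]

theorem const_of_altSum_eq_zero [T2Space X] (hT : IsMin T) {φ : X → ℝ} (hφ : Continuous φ)
    (h : ∀ c ∈ Cub T ι, altSum φ c = 0) (x y : X) : φ x = φ y := by
  obtain ⟨C, hC⟩ := isCompact_univ.exists_bound_of_continuousOn hφ.continuousOn
  have h1 : ∀ t : ℤ, φ ((T ^ t) x) = φ x := by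
    intro t
    have h2 := cb_const (ι := ι) (b := fun t => φ ((T ^ t) x)) (C := C) (fun t => hC _ (Set.mem_univ _)) (by
      intro t n
      exact h _ (cb_dcube_mem T t n x)) t
    simpa using h2
  have h3 : IsClosed {z | φ x = φ z} := isClosed_eq continuous_const hφ
  have h4 : closure (Set.range fun n : ℤ => (T ^ n) x) ⊆ {z | φ x = φ z} :=
    h3.closure_subset_iff.2 (by rintro _ ⟨n, rfl⟩; exact (h1 n).symm)
  rw [(hT x).closure_eq] at h4
  exact h4 (Set.mem_univ y)

/-- **coboundary lemma** (orbit form): a continuous function on cubes, additive along orbits, is the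
alternating sum of a continuous function, small if `δ` is small -/
theorem coboundary_orbit [T2Space X] [Nonempty ι] (hT : IsMin T) {δ : (Finset ι → X) → ℝ}
    (hδ : ContinuousOn δ (Cub T ι))
    (hadd : ∀ (i : ι) (h : ι → ℤ) (m : ℤ) (x : X),
      δ (dcube T 0 (Function.update h i (h i + m)) x) =
        δ (dcube T 0 h x) + δ (dcube T 0 (Function.update h i m) ((T ^ h i) x))) :
    ∃ φ : C(X, ℝ), (∀ c ∈ Cub T ι, δ c = altSum φ c) ∧
      ∀ M, (∀ c ∈ Cub T ι, |δ c| ≤ M) → ∀ x, |φ x| ≤ 2 * M := by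
  classical
  have hcomp : IsCompact (Cub T ι) := isClosed_closure.isCompact
  obtain ⟨C, hC'⟩ := hcomp.exists_bound_of_continuousOn hδ
  have hC : ∀ c ∈ Cub T ι, |δ c| ≤ C := fun c hc => hC' c hc
  set μ : CbMean ι := cbMean ι with hμ
  set ψ : X → ℝ := fun x => μ.M fun k => δ (dcube T 0 k x) with hψ
  have hψb : ∀ M : ℝ, (∀ c ∈ Cub T ι, |δ c| ≤ M) → ∀ x, |ψ x| ≤ M := fun M hM x =>
    μ.bound _ M fun k => hM _ (cb_dcube_mem T 0 k x)
  -- the alternating sum formula
  have halt : ∀ (t : ℤ) (n : ι → ℤ) (x : X), δ (dcube T t n x) =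
      ∑ S : Finset ι, (-1 : ℝ) ^ S.card * ψ ((T ^ (t + ∑ i ∈ S, n i)) x) := by
    intro t n x
    have h1 := cb_subdiv μ (fun t k => δ (dcube T t k x)) C (fun t k => hC _ (cb_dcube_mem T t k x)) (by
      intro i h m t
      have h2 := hadd i h m ((T ^ t) x)
      rw [← cb_dcube_shift, ← cb_dcube_shift] at h2
      rw [h2, cb_dcube_shift T (t + h i), add_comm t, zpow_add]
      rfl) Finset.univ t n
    rw [Finset.powerset_univ] at h1
    simp only [Finset.mem_univ, if_true] at h1
    rw [h1]
    refine Finset.sum_congr rfl fun S _ => ?_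
    congr 1
    simp only [hψ]
    congr 1
    funext k
    rw [cb_dcube_shift]
  -- the cocycle is continuous
  have hθ : ∀ m : ℤ, Continuous fun x => ψ ((T ^ m) x) - ψ x := by
    intro m
    rw [continuous_iff_ultrafilter]
    intro x g hg
    have hex : ∀ n : ℤ, ∃ l, Tendsto (fun y => ψ ((T ^ n) y) - ψ y) g (𝓝 l) ∧ |l| ≤ 2 * C := by
      intro n
      have hb : ∀ y : X, ψ ((T ^ n) y) - ψ y ∈ Set.Icc (-(2 * C)) (2 * C) := by
        intro y
        have h1 := hψb C hC y
        have h2 := hψb C hC ((T ^ n) y)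
        rw [abs_le] at h1 h2
        simp only [Set.mem_Icc]
        constructor <;> linarith
      have hmem : Set.Icc (-(2 * C)) (2 * C) ∈ g.map (fun y => ψ ((T ^ n) y) - ψ y) := by
        rw [Ultrafilter.mem_map]
        exact mem_of_superset (univ_mem : Set.univ ∈ (g : Filter X)) fun y _ => hb y
      obtain ⟨l, hl1, hl2⟩ := (isCompact_Icc (a := -(2 * C)) (b := 2 * C)).ultrafilter_le_nhds'
        (g.map fun y => ψ ((T ^ n) y) - ψ y) hmem
      exact ⟨l, hl2, abs_le.2 hl1⟩
    choose a ha hab using hex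
    have hcont : ∀ (t : ℤ) (n : ι → ℤ), Continuous fun y => δ (dcube T t n y) := fun t n =>
      hδ.comp_continuous (cb_dcube_cont T t n) fun y => cb_dcube_mem T t n y
    have hsum : ∀ (t : ℤ) (n : ι → ℤ), ∑ S : Finset ι, (-1 : ℝ) ^ S.card * a (t + ∑ i ∈ S, n i) =
        δ (dcube T t n x) := by
      intro t n
      have h1 : Tendsto (fun y => ∑ S : Finset ι, (-1 : ℝ) ^ S.card *
          (ψ ((T ^ (t + ∑ i ∈ S, n i)) y) - ψ y)) g
          (𝓝 (∑ S : Finset ι, (-1 : ℝ) ^ S.card * a (t + ∑ i ∈ S, n i))) :=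
        tendsto_finsetSum _ fun S _ => (ha _).const_mul _
      have h2 : (fun y => ∑ S : Finset ι, (-1 : ℝ) ^ S.card * (ψ ((T ^ (t + ∑ i ∈ S, n i)) y) - ψ y)) =
          fun y => δ (dcube T t n y) := by
        funext y
        rw [halt]
        simp only [mul_sub, Finset.sum_sub_distrib, ← Finset.sum_mul, cb_sum_neg_one, zero_mul, sub_zero]
      rw [h2] at h1
      exact tendsto_nhds_unique h1 (((hcont t n).tendsto x).mono_left hg)
    have hb := cb_const (ι := ι) (b := fun t => a t - (ψ ((T ^ t) x) - ψ x)) (C := 4 * C) (by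
      intro t
      have h1 := hψb C hC x
      have h2 := hψb C hC ((T ^ t) x)
      have h3 := hab t
      rw [abs_le] at h1 h2 h3 ⊢
      constructor <;> linarith) (by
      intro t n
      have h1 := hsum t n
      rw [halt] at h1
      simp only [mul_sub, Finset.sum_sub_distrib, ← Finset.sum_mul, cb_sum_neg_one, zero_mul, sub_zero]
      linarith)
    have h0 : a 0 = 0 := by
      refine tendsto_nhds_unique (ha 0) ?_
      simp
    have hm := hb m
    simp only [zpow_zero, Homeomorph.one_apply, sub_self, h0] at hm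
    have hm' : a m = ψ ((T ^ m) x) - ψ x := by linarith
    rw [← hm']
    exact ha m
  have hθn : ∀ (m n : ℤ) (x : X), ψ ((T ^ m) ((T ^ n) x)) - ψ ((T ^ n) x) =
      (ψ ((T ^ (m + n)) x) - ψ x) + (ψ x - ψ ((T ^ n) x)) := by
    intro m n x
    rw [zpow_add]
    simp only [Homeomorph.mul_apply]
    ring
  have hθb : ∀ M : ℝ, (∀ c ∈ Cub T ι, |δ c| ≤ M) → ∀ (m : ℤ) (x : X), |ψ ((T ^ m) x) - ψ x| ≤ 2 * M :=
    fun M hM m x => (abs_sub _ _).trans (by linarith [hψb M hM x, hψb M hM ((T ^ m) x)])
  have hbA : ∀ x : X, BddAbove (Set.range fun m : ℤ => ψ ((T ^ m) x) - ψ x) := fun x =>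
    ⟨2 * C, by rintro _ ⟨m, rfl⟩; exact (abs_le.1 (hθb C hC m x)).2⟩
  have hbB : ∀ x : X, BddBelow (Set.range fun m : ℤ => ψ ((T ^ m) x) - ψ x) := fun x =>
    ⟨-(2 * C), by rintro _ ⟨m, rfl⟩; exact (abs_le.1 (hθb C hC m x)).1⟩
  set Sp : X → ℝ := fun x => ⨆ m : ℤ, (ψ ((T ^ m) x) - ψ x) with hSp
  set In : X → ℝ := fun x => ⨅ m : ℤ, (ψ ((T ^ m) x) - ψ x) with hIn
  have hSl : LowerSemicontinuous Sp :=
    lowerSemicontinuous_ciSup hbA fun m => (hθ m).lowerSemicontinuous
  have hIu : UpperSemicontinuous In :=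
    upperSemicontinuous_ciInf hbB fun m => (hθ m).upperSemicontinuous
  have hST : ∀ (n : ℤ) (x : X), Sp ((T ^ n) x) = Sp x + (ψ x - ψ ((T ^ n) x)) := by
    intro n x
    simp only [hSp]
    rw [ciSup_add (hbA x)]
    rw [← (Equiv.addRight n).iSup_comp (g := fun m : ℤ => ψ ((T ^ m) x) - ψ x + (ψ x - ψ ((T ^ n) x)))]
    exact iSup_congr fun m => hθn m n x
  have hIT : ∀ (n : ℤ) (x : X), In ((T ^ n) x) = In x + (ψ x - ψ ((T ^ n) x)) := by
    intro n x
    simp only [hIn]
    rw [ciInf_add (hbB x)]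
    rw [← (Equiv.addRight n).iInf_comp (g := fun m : ℤ => ψ ((T ^ m) x) - ψ x + (ψ x - ψ ((T ^ n) x)))]
    exact iInf_congr fun m => hθn m n x
  have hWl : LowerSemicontinuous fun x => Sp x + -(In x) :=
    hSl.add hIu.neg
  have hW : ∀ x y : X, Sp y + -(In y) ≤ Sp x + -(In x) := by
    intro x y
    have h1 : IsClosed ((fun x => Sp x + -(In x)) ⁻¹' Set.Iic (Sp x + -(In x))) :=
      hWl.isClosed_preimage _
    have h2 : closure (Set.range fun n : ℤ => (T ^ n) x) ⊆
        (fun x => Sp x + -(In x)) ⁻¹' Set.Iic (Sp x + -(In x)) := by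
      refine h1.closure_subset_iff.2 ?_
      rintro _ ⟨n, rfl⟩
      simp only [Set.mem_preimage, Set.mem_Iic]
      rw [hST, hIT]
      linarith
    rw [(hT x).closure_eq] at h2
    exact h2 (Set.mem_univ y)
  have hSc : Continuous Sp := by
    rw [continuous_iff_lower_upperSemicontinuous]
    refine ⟨hSl, ?_⟩
    rcases isEmpty_or_nonempty X with hX | ⟨⟨x0⟩⟩
    · intro x
      exact (hX.false x).elim
    · have e : Sp = fun x => In x + (Sp x0 + -(In x0)) := by
        funext x
        have h1 := hW x x0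
        have h2 := hW x0 x
        linarith
      rw [e]
      exact hIu.add (continuous_const (y := Sp x0 + -(In x0))).upperSemicontinuous
  refine ⟨⟨fun x => -(Sp x), hSc.neg⟩, ?_, ?_⟩
  · have hEq : Set.EqOn δ (altSum fun x => -(Sp x)) {c | ∃ (n : ℤ) (h : ι → ℤ) (x : X), c = dcube T n h x} := by
      rintro _ ⟨t, n, x, rfl⟩
      rw [halt]
      have h1 : altSum (fun x => -(Sp x)) (dcube T t n x) =
          ∑ S : Finset ι, (-1 : ℝ) ^ S.card * (ψ ((T ^ (t + ∑ i ∈ S, n i)) x) - (ψ x + Sp x)) := by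
        refine Finset.sum_congr rfl fun S _ => ?_
        simp only [dcube, expo]
        rw [hST]
        ring
      rw [h1]
      simp only [mul_sub, Finset.sum_sub_distrib, ← Finset.sum_mul, cb_sum_neg_one, zero_mul, sub_zero]
    exact hEq.of_subset_closure hδ (altSum_cont hSc.neg).continuousOn subset_closure subset_rfl
  · intro M hM x
    have h1 : Sp x ≤ 2 * M := ciSup_le fun m => (abs_le.1 (hθb M hM m x)).2
    have h2 : 0 ≤ Sp x := by
      have := le_ciSup (hbA x) 0
      simpa using this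
    show |-(Sp x)| ≤ 2 * M
    rw [abs_neg, abs_of_nonneg h2]
    exact h1

/-- **coboundary lemma** (gluing form) -/
theorem coboundary [T2Space X] [Nonempty ι] (hT : IsMin T) {δ : (Finset ι → X) → ℝ}
    (hδ : ContinuousOn δ (Cub T ι)) (hadd : AddCub T δ) :
    ∃ φ : C(X, ℝ), (∀ c ∈ Cub T ι, δ c = altSum φ c) ∧
      ∀ M, (∀ c ∈ Cub T ι, |δ c| ≤ M) → ∀ x, |φ x| ≤ 2 * M := by
  refine coboundary_orbit hT hδ fun i h m x => ?_
  have h1 := hadd i _ (cb_dcube_mem T 0 h x) _ (cb_dcube_mem T 0 (Function.update h i m) ((T ^ h i) x)) (by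
    intro A hA
    simp only [dcube, expo, zero_add]
    rw [Finset.sum_insert hA, Finset.sum_update_of_notMem hA, add_comm, zpow_add]
    rfl)
  rw [← h1]
  congr 1
  funext S
  simp only [dcube, expo, zero_add, glue]
  by_cases hi : i ∈ S
  · rw [if_pos hi, Finset.sum_update_of_mem hi, Finset.sum_update_of_mem hi, ← Homeomorph.mul_apply, ← zpow_add]
    congr 2
    ring
  · rw [if_neg hi, Finset.sum_update_of_notMem hi]

end cobd

end MP_e326dc_an
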