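import Pool.Agent.Lib.MP_e326dc_an.E.Act

set_option autoImplicit false

/-!
# E3 (ii): eigenfunctions of a Lie step
-/

open Filter Topology MeasureTheory
open scoped ComplexConjugate

namespace MP_e326dc_an

namespace EigenAux

variable {P P' : DSys} {l : ℕ} (L : LieStep P P' l)

theorem compactB : CompactSpace L.B := isCompact_iff_compactSpace.mp L.closed.isCompact

/-- a single eigenfunction which does not vanish at a given point -/
theorem exists_one (x₀ : P.X) : ∃ f : C(P.X, ℂ),
    (∀ (b : L.B) x, f (L.act.hom b x) = ((b : Circle) : ℂ) * f x) ∧ f x₀ ≠ 0 := by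
  have hcomp : CompactSpace L.B := compactB L
  let _ : MeasurableSpace L.B := borel L.B
  have : BorelSpace L.B := ⟨rfl⟩
  let μ : Measure L.B := Measure.haar
  have : IsFiniteMeasure μ := CompactSpace.isFiniteMeasure
  -- the bump
  have hact : Continuous fun q : L.B × P.X => L.act.hom q.1 q.2 := L.act.cont
  have hcoe : Continuous fun b : L.B => (((b : Circle) : ℂ)) :=
    continuous_subtype_val.comp continuous_subtype_val
  have horb : Continuous fun b : L.B => L.act.hom b x₀ :=
    hact.comp (continuous_id.prodMk continuous_const)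
  set K : Set L.B := {b | (((b : Circle) : ℂ)).re ≤ 1 / 2} with hK
  have hKcl : IsClosed K := by
    refine isClosed_le ?_ continuous_const
    exact Complex.continuous_re.comp hcoe
  have hKim : IsClosed ((fun b : L.B => L.act.hom b x₀) '' K) :=
    (hKcl.isCompact.image horb).isClosed
  have hdisj : Disjoint ((fun b : L.B => L.act.hom b x₀) '' K) {x₀} := by
    rw [Set.disjoint_singleton_right]
    rintro ⟨b, hb, hbx⟩
    have h1 : b = 1 := L.act.free b x₀ hbx
    subst h1
    have h2 : (((1 : L.B) : Circle) : ℂ).re ≤ 1 / 2 := hb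
    norm_num at h2
  obtain ⟨ψ, hψ0, hψ1, hψ⟩ := exists_continuous_zero_one_of_isClosed hKim isClosed_singleton hdisj
  have hψx : ψ x₀ = 1 := hψ1 rfl
  -- the averaged function
  let Φ : C(P.X × L.B, ℂ) :=
    ⟨fun q => conj (((q.2 : Circle) : ℂ)) * ((ψ (L.act.hom q.2 q.1) : ℝ) : ℂ), by
      refine Continuous.mul ?_ ?_
      · exact Complex.continuous_conj.comp (hcoe.comp continuous_snd)
      · exact Complex.continuous_ofReal.comp (ψ.continuous.comp
          (hact.comp (continuous_snd.prodMk continuous_fst)))⟩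
  have hint : ∀ F : C(L.B, ℂ), Integrable (fun b => F b) μ := fun F =>
    (F.continuous.integrable_of_hasCompactSupport (HasCompactSupport.of_compactSpace _))
  have hI : Continuous fun F : C(L.B, ℂ) => ∫ b, F b ∂μ := by
    have hlip : LipschitzWith (Real.toNNReal (μ.real Set.univ)) fun F : C(L.B, ℂ) => ∫ b, F b ∂μ := by
      refine LipschitzWith.of_dist_le_mul fun F G => ?_
      rw [dist_eq_norm, ← integral_sub (hint F) (hint G), Real.coe_toNNReal _ measureReal_nonneg]
      rw [mul_comm]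
      refine norm_integral_le_of_norm_le_const (Eventually.of_forall fun b => ?_)
      rw [← dist_eq_norm]
      exact ContinuousMap.dist_apply_le_dist b
    exact hlip.continuous
  let f : C(P.X, ℂ) := ⟨fun x => ∫ b, Φ.curry x b ∂μ, hI.comp Φ.curry.continuous⟩
  have hf : ∀ x, f x = ∫ b, conj (((b : L.B) : Circle) : ℂ) * ((ψ (L.act.hom b x) : ℝ) : ℂ) ∂μ :=
    fun x => rfl
  refine ⟨f, fun c x => ?_, ?_⟩
  · rw [hf, hf]
    have h1 : ∫ b, conj (((b : L.B) : Circle) : ℂ) * ((ψ (L.act.hom b (L.act.hom c x)) : ℝ) : ℂ) ∂μ =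
        ∫ b, conj ((((b * c⁻¹ : L.B)) : Circle) : ℂ) * ((ψ (L.act.hom b x) : ℝ) : ℂ) ∂μ := by
      rw [← integral_mul_right_eq_self (fun b : L.B =>
        conj ((((b * c⁻¹ : L.B)) : Circle) : ℂ) * ((ψ (L.act.hom b x) : ℝ) : ℂ)) c]
      refine integral_congr_ae (Eventually.of_forall fun b => ?_)
      simp only [mul_inv_cancel_right]
      rw [L.act.hom_mul]
    rw [h1, ← integral_const_mul]
    refine integral_congr_ae (Eventually.of_forall fun b => ?_)
    have h2 : conj ((((b * c⁻¹ : L.B)) : Circle) : ℂ) =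
        ((c : Circle) : ℂ) * conj (((b : L.B) : Circle) : ℂ) := by
      rw [Subgroup.coe_mul, Subgroup.coe_inv, Circle.coe_mul, map_mul, Circle.coe_inv_eq_conj,
        Complex.conj_conj]
      ring
    simp only [h2]
    ring
  · intro h0
    have hre : (f x₀).re = ∫ b, ((((b : L.B) : Circle) : ℂ)).re * ψ (L.act.hom b x₀) ∂μ := by
      rw [hf]
      have h1 := (Complex.reCLM.integral_comp_comm (hint (Φ.curry x₀))).symm
      have h2 : Complex.reCLM (∫ b, Φ.curry x₀ b ∂μ) = (∫ b, Φ.curry x₀ b ∂μ).re := rfl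
      rw [h2] at h1
      refine Eq.trans h1 ?_
      refine integral_congr_ae (Eventually.of_forall fun b => ?_)
      show (conj (((b : L.B) : Circle) : ℂ) * ((ψ (L.act.hom b x₀) : ℝ) : ℂ)).re = _
      rw [Complex.re_mul_ofReal, Complex.conj_re]
    have hpos : 0 < ∫ b, ((((b : L.B) : Circle) : ℂ)).re * ψ (L.act.hom b x₀) ∂μ := by
      have hc : Continuous fun b : L.B => ((((b : L.B) : Circle) : ℂ)).re * ψ (L.act.hom b x₀) :=
        (Complex.continuous_re.comp hcoe).mul (ψ.continuous.comp horb)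
      have hnn : ∀ b : L.B, 0 ≤ ((((b : L.B) : Circle) : ℂ)).re * ψ (L.act.hom b x₀) := by
        intro b
        by_cases hb : b ∈ K
        · have : ψ (L.act.hom b x₀) = 0 := hψ0 ⟨b, hb, rfl⟩
          rw [this, mul_zero]
        · have h1 : 1 / 2 < ((((b : L.B) : Circle) : ℂ)).re := not_le.mp hb
          exact mul_nonneg (by linarith) (hψ _).1
      refine hc.integral_pos_of_hasCompactSupport_nonneg_nonzero
        (HasCompactSupport.of_compactSpace _) hnn (x := (1 : L.B)) ?_
      rw [L.act.hom_one, hψx]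
      norm_num
    rw [← hre, h0] at hpos
    simp at hpos

end EigenAux

theorem LieStep.exists_eigen {P P' : DSys} {l : ℕ} (L : LieStep P P' l) :
    ∃ (n : ℕ) (f : Fin n → C(P.X, ℂ)),
      (∀ i (b : L.B) x, f i (L.act.hom b x) = ((b : Circle) : ℂ) * f i x) ∧
      ∀ x, ∑ i, ‖f i x‖ ^ 2 = 1 := by
  choose g hg hg0 using EigenAux.exists_one L
  obtain ⟨t, ht⟩ := isCompact_univ.elim_finite_subcover (fun x₀ : P.X => {x | g x₀ x ≠ 0})
    (fun x₀ => isOpen_ne_fun (g x₀).continuous continuous_const)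
    (fun x _ => Set.mem_iUnion.mpr ⟨x, hg0 x⟩)
  set s : P.X → ℝ := fun x => ∑ i ∈ t, ‖g i x‖ ^ 2 with hs
  have hspos : ∀ x, 0 < s x := by
    intro x
    obtain ⟨i, hi, hx⟩ := Set.mem_iUnion₂.mp (ht (Set.mem_univ x))
    refine Finset.sum_pos' (fun j _ => by positivity) ⟨i, hi, ?_⟩
    have : 0 < ‖g i x‖ := norm_pos_iff.mpr hx
    positivity
  have hscont : Continuous s := continuous_finsetSum _ fun i _ => ((g i).continuous.norm).pow 2
  have hsinv : ∀ (b : L.B) x, s (L.act.hom b x) = s x := by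
    intro b x
    refine Finset.sum_congr rfl fun i _ => ?_
    rw [hg, norm_mul, Circle.norm_coe, one_mul]
  have hrt : ∀ x, 0 < Real.sqrt (s x) := fun x => Real.sqrt_pos.mpr (hspos x)
  let e : Fin t.card ≃ t := t.equivFin.symm
  refine ⟨t.card, fun i => ⟨fun x => ((Real.sqrt (s x))⁻¹ : ℝ) • g (e i) x, ?_⟩, fun i b x => ?_,
    fun x => ?_⟩
  · exact (Continuous.inv₀ (Real.continuous_sqrt.comp hscont) fun x => (hrt x).ne').smul
      (g (e i)).continuous
  · show ((Real.sqrt (s (L.act.hom b x)))⁻¹ : ℝ) • g (e i) (L.act.hom b x) =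
      ((b : Circle) : ℂ) * (((Real.sqrt (s x))⁻¹ : ℝ) • g (e i) x)
    rw [hsinv, hg, mul_smul_comm]
  · show ∑ i, ‖((Real.sqrt (s x))⁻¹ : ℝ) • g (e i) x‖ ^ 2 = 1
    have h1 : ∀ i, ‖((Real.sqrt (s x))⁻¹ : ℝ) • g (e i) x‖ ^ 2 =
        (s x)⁻¹ * ‖g (e i) x‖ ^ 2 := by
      intro i
      rw [norm_smul, mul_pow, Real.norm_of_nonneg (by positivity), inv_pow,
        Real.sq_sqrt (hspos x).le]
    simp only [h1]
    rw [← Finset.mul_sum]
    have h2 : ∑ i, ‖g (e i) x‖ ^ 2 = s x := by
      have h3 : s x = ∑ i ∈ t, ‖g i x‖ ^ 2 := rfl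
      rw [h3, ← Finset.sum_coe_sort t (fun i => ‖g i x‖ ^ 2)]
      exact Equiv.sum_comp e (fun i : t => ‖g i x‖ ^ 2)
    rw [h2, inv_mul_cancel₀ (hspos x).ne']

end MP_e326dc_an
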