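import Pool.Agent.Lib.MP_e326dc_an.E.Near

/-!
# MP_e326dc_an, E8 : functions on orbit systems
-/

open Filter Topology

namespace MP_e326dc_an

namespace GAct

variable {C : Type} [CommGroup C] [TopologicalSpace C] [CompactSpace C] {P : DSys} (a : GAct C P)

/-- invariant continuous maps descend to the orbit system -/
lemma exists_desc {E : Type*} [TopologicalSpace E] (F : C(P.X, E))
    (h : ∀ c x, F (a.hom c x) = F x) : ∃ F' : C(a.quot.X, E), ∀ x, F' (a.fac.π x) = F x := by
  have h1 : ∀ x y, a.setoid x y → F x = F y := by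
    rintro x y ⟨c, rfl⟩
    exact (h c x).symm
  refine ⟨⟨Quotient.lift F h1, ?_⟩, fun x => rfl⟩
  exact continuous_quot_lift _ F.continuous

/-- almost invariant real functions are close to functions on the orbit system -/
lemma exists_approx_real (F : C(P.X, ℝ)) {δ : ℝ} (h : ∀ c x, |F (a.hom c x) - F x| ≤ δ) :
    ∃ F' : C(a.quot.X, ℝ), ∀ x, |F x - F' (a.fac.π x)| ≤ δ := by
  have hc : Continuous fun x => sSup ((fun c => F (a.hom c x)) '' Set.univ) := by
    refine IsCompact.continuous_sSup (f := fun x c => F (a.hom c x)) isCompact_univ ?_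
    exact F.continuous.comp (a.cont.comp continuous_swap)
  have hbd : ∀ x, BddAbove ((fun c => F (a.hom c x)) '' Set.univ) := by
    intro x
    refine ⟨F x + δ, ?_⟩
    rintro _ ⟨c, _, rfl⟩
    have := (abs_le.1 (h c x)).2
    simp only
    linarith
  obtain ⟨F', hF'⟩ := a.exists_desc ⟨_, hc⟩ (by
    intro c x
    simp only [ContinuousMap.coe_mk]
    congr 1
    ext t
    constructor
    · rintro ⟨d, _, rfl⟩
      exact ⟨d * c, trivial, by simp only [a.hom_mul]⟩
    · rintro ⟨d, _, rfl⟩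
      refine ⟨d * c⁻¹, trivial, ?_⟩
      simp only [← a.hom_mul, inv_mul_cancel_right])
  refine ⟨F', fun x => ?_⟩
  have hF2 : F' (a.fac.π x) = sSup ((fun c => F (a.hom c x)) '' Set.univ) := hF' x
  rw [hF2, abs_le]
  have h0 : F x ∈ ((fun c => F (a.hom c x)) '' Set.univ) := ⟨1, trivial, by simp only [a.hom_one]⟩
  constructor
  · have : sSup ((fun c => F (a.hom c x)) '' Set.univ) ≤ F x + δ := by
      refine csSup_le ⟨_, h0⟩ ?_
      rintro _ ⟨c, _, rfl⟩
      have := (abs_le.1 (h c x)).2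
      simp only
      linarith
    linarith
  · have h1 := le_csSup (hbd x) h0
    have h2 : 0 ≤ δ := (abs_nonneg _).trans (h 1 x)
    linarith

lemma exists_approx (F : C(P.X, ℂ)) {δ : ℝ} (h : ∀ c x, ‖F (a.hom c x) - F x‖ ≤ δ) :
    ∃ F' : C(a.quot.X, ℂ), ∀ x, ‖F x - F' (a.fac.π x)‖ ≤ 2 * δ := by
  obtain ⟨G, hG⟩ := a.exists_approx_real ⟨fun x => (F x).re, Complex.continuous_re.comp F.continuous⟩
    (δ := δ) (fun c x => by
      simp only [ContinuousMap.coe_mk]
      rw [← Complex.sub_re]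
      exact (Complex.abs_re_le_norm _).trans (h c x))
  obtain ⟨H, hH⟩ := a.exists_approx_real ⟨fun x => (F x).im, Complex.continuous_im.comp F.continuous⟩
    (δ := δ) (fun c x => by
      simp only [ContinuousMap.coe_mk]
      rw [← Complex.sub_im]
      exact (Complex.abs_im_le_norm _).trans (h c x))
  refine ⟨⟨fun y => (G y : ℂ) + (H y : ℂ) * Complex.I, by fun_prop⟩, fun x => ?_⟩
  have h1 := hG x
  have h2 := hH x
  simp only [ContinuousMap.coe_mk] at h1 h2 ⊢
  have h3 : F x - ((G (a.fac.π x) : ℂ) + (H (a.fac.π x) : ℂ) * Complex.I) =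
      (((F x).re - G (a.fac.π x) : ℝ) : ℂ) + (((F x).im - H (a.fac.π x) : ℝ) : ℂ) * Complex.I := by
    conv_lhs => rw [← Complex.re_add_im (F x)]
    push_cast
    ring
  rw [h3]
  refine (norm_add_le _ _).trans ?_
  rw [norm_mul, Complex.norm_I, mul_one, Complex.norm_real, Complex.norm_real, Real.norm_eq_abs,
    Real.norm_eq_abs]
  linarith

end GAct

/-- small homeomorphisms change a continuous function by little -/
lemma exists_near_fun {Y : DSys} (F : C(Y.X, ℂ)) {δ : ℝ} (hδ : 0 < δ) :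
    ∃ W ∈ 𝓝ˢ (Set.diagonal Y.X), ∀ g : Y.X → Y.X, Near W g → ∀ x, ‖F (g x) - F x‖ ≤ δ := by
  have hW : {q : Y.X × Y.X | ‖F q.2 - F q.1‖ < δ} ∈ 𝓝ˢ (Set.diagonal Y.X) := by
    have h1 : Continuous fun q : Y.X × Y.X => ‖F q.2 - F q.1‖ := by fun_prop
    refine (isOpen_lt h1 continuous_const).mem_nhdsSet.2 ?_
    rintro ⟨x, y⟩ hxy
    obtain rfl : x = y := hxy
    change ‖F x - F x‖ < δ
    rw [sub_self, norm_zero]
    exact hδ
  exact ⟨_, hW, fun g hg x => (hg x : ‖F (g x) - F x‖ < δ).le⟩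

end MP_e326dc_an
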