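import Mathlib

/-!
# MP_e326dc_an : almost homomorphisms with a small central defect in the circle (dyadic roots)
-/

open Filter Topology

namespace MP_e326dc_an

/-- distance of an element of the circle to `1` -/
noncomputable def cn (z : Circle) : ℝ := ‖(z : ℂ) - 1‖

lemma cn_nonneg (z : Circle) : 0 ≤ cn z := norm_nonneg _

@[simp] lemma cn_one : cn 1 = 0 := by simp [cn]

lemma cn_eq_zero {z : Circle} : cn z = 0 ↔ z = 1 := by
  unfold cn
  rw [norm_eq_zero, sub_eq_zero]
  exact ⟨fun h => Circle.ext (by simpa using h), fun h => by simp [h]⟩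

lemma cn_mul_le (z w : Circle) : cn (z * w) ≤ cn z + cn w := by
  unfold cn
  have : ((z * w : Circle) : ℂ) - 1 = z * ((w : ℂ) - 1) + ((z : ℂ) - 1) := by
    push_cast; ring
  rw [this]
  refine (norm_add_le _ _).trans ?_
  rw [norm_mul, Circle.norm_coe, one_mul, add_comm]

@[simp] lemma cn_inv (z : Circle) : cn z⁻¹ = cn z := by
  unfold cn
  have : ((z⁻¹ : Circle) : ℂ) - 1 = ((z⁻¹ : Circle) : ℂ) * (1 - (z : ℂ)) := by
    have : ((z⁻¹ : Circle) : ℂ) * (z : ℂ) = 1 := by
      rw [← Circle.coe_mul, inv_mul_cancel, Circle.coe_one]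
    rw [mul_sub, mul_one, this]
  rw [this, norm_mul, Circle.norm_coe, one_mul, norm_sub_rev]

lemma cn_exp_le (t : ℝ) : cn (Circle.exp t) ≤ |t| := by
  unfold cn
  rw [Circle.coe_exp, mul_comm]
  exact Real.norm_exp_I_mul_ofReal_sub_one_le

lemma abs_arg_le (z : Circle) : |Complex.arg z| ≤ 2 * cn z := by
  have h0 : |Complex.arg z / 2| ≤ Real.pi / 2 := by
    rw [abs_div, abs_of_pos (by norm_num : (0 : ℝ) < 2)]
    have := Complex.abs_arg_le_pi z
    linarith
  have h1 := Real.mul_abs_le_abs_sin h0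
  have h2 : cn z = 2 * |Real.sin (Complex.arg z / 2)| := by
    conv_lhs => rw [← Circle.exp_arg z]
    unfold cn
    rw [Circle.coe_exp, mul_comm, Complex.norm_exp_I_mul_ofReal_sub_one]
    simp
  rw [h2]
  have h3 : |Complex.arg z / 2| = |Complex.arg z| / 2 := by
    rw [abs_div, abs_of_pos (by norm_num : (0 : ℝ) < 2)]
  rw [h3] at h1
  have h4 : (1 : ℝ) / 2 ≤ 2 / Real.pi := by
    rw [div_le_div_iff₀ (by norm_num) Real.pi_pos]
    have := Real.pi_le_four
    linarith
  have h5 := abs_nonneg (Complex.arg z)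
  nlinarith

lemma cn_sq {z : Circle} (h : cn z ≤ 1 / 2) : 3 / 2 * cn z ≤ cn (z ^ 2) := by
  unfold cn at *
  have h1 : ((z ^ 2 : Circle) : ℂ) - 1 = ((z : ℂ) + 1) * ((z : ℂ) - 1) := by
    push_cast; ring
  rw [h1, norm_mul]
  have h2 : 3 / 2 ≤ ‖(z : ℂ) + 1‖ := by
    have : (z : ℂ) + 1 = 2 + ((z : ℂ) - 1) := by ring
    have h3 : ‖(2 : ℂ)‖ - ‖(z : ℂ) - 1‖ ≤ ‖(z : ℂ) + 1‖ := by
      rw [this]
      have := norm_sub_norm_le (2 : ℂ) (-((z : ℂ) - 1))
      rwa [norm_neg, sub_neg_eq_add] at this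
    have h4 : ‖(2 : ℂ)‖ = 2 := by simp
    rw [h4] at h3
    linarith
  exact mul_le_mul_of_nonneg_right h2 (norm_nonneg _)

lemma cn_dyadic {z : Circle} {n : ℕ} (h : ∀ k < n, cn (z ^ (2 ^ k)) ≤ 1 / 2) :
    (3 / 2) ^ n * cn z ≤ cn (z ^ (2 ^ n)) := by
  induction n with
  | zero => simp
  | succ n ih =>
    have h1 := ih fun k hk => h k (by omega)
    have h2 := cn_sq (h n (by omega))
    rw [← pow_mul, ← pow_succ] at h2
    refine le_trans ?_ h2
    rw [pow_succ]
    nlinarith

lemma eq_one_of_dyadic {z : Circle} (h : ∀ k : ℕ, cn (z ^ (2 ^ k)) ≤ 1 / 2) : z = 1 := by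
  rw [← cn_eq_zero]
  by_contra hz
  have hpos : 0 < cn z := lt_of_le_of_ne (cn_nonneg z) (Ne.symm hz)
  obtain ⟨n, hn⟩ := pow_unbounded_of_one_lt (1 / cn z) (by norm_num : (1 : ℝ) < 3 / 2)
  have h1 := (cn_dyadic (z := z) (n := n) fun k _ => h k).trans (h n)
  rw [div_lt_iff₀ hpos] at hn
  linarith

lemma cn_lt_mem_nhds {ρ : ℝ} (hρ : 0 < ρ) : {z : Circle | cn z < ρ} ∈ 𝓝 (1 : Circle) := by
  have h1 : Continuous cn := (continuous_norm.comp
    ((continuous_subtype_val).sub continuous_const))
  exact (isOpen_lt h1 continuous_const).mem_nhds (by simpa using hρ)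

/-- A closed subgroup of the circle is the circle or has no small elements. -/
lemma circle_closed_subgroup {B : Subgroup Circle} (hB : IsClosed (B : Set Circle)) :
    B = ⊤ ∨ ∃ ρ > 0, ∀ b ∈ B, cn b ≤ ρ → b = 1 := by
  let S : AddSubgroup ℝ :=
    { carrier := {t | Circle.exp t ∈ B}
      add_mem' := by
        intro s t hs ht
        simp only [Set.mem_ofPred_eq] at *
        rw [Circle.exp_add]
        exact B.mul_mem hs ht
      zero_mem' := by
        simp only [Set.mem_ofPred_eq, Circle.exp_zero]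
        exact B.one_mem
      neg_mem' := by
        intro t ht
        simp only [Set.mem_ofPred_eq] at *
        rw [Circle.exp_neg]
        exact B.inv_mem ht }
  have hS : ∀ t, t ∈ S ↔ Circle.exp t ∈ B := fun t => Iff.rfl
  have hScl : IsClosed (S : Set ℝ) := hB.preimage Circle.exp.continuous
  by_cases h : ∀ ε : ℝ, 0 < ε → ∃ g ∈ S, g ∈ Set.Ioo 0 ε
  · left
    have h1 := S.dense_of_not_isolated_zero fun ε hε => h ε hε
    have h2 : (S : Set ℝ) = Set.univ := by
      rw [← hScl.closure_eq]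
      exact h1.closure_eq
    rw [eq_top_iff]
    intro b _
    have h3 : Complex.arg b ∈ (S : Set ℝ) := by rw [h2]; trivial
    have h4 := (hS _).1 h3
    rwa [Circle.exp_arg] at h4
  · right
    push Not at h
    obtain ⟨ε, hε, h⟩ := h
    refine ⟨ε / 4, by positivity, fun b hb hbs => ?_⟩
    have h1 := abs_arg_le b
    have h2 : Complex.arg b ∈ S := (hS _).2 (by rwa [Circle.exp_arg])
    have h3 : Complex.arg b = 0 := by
      rcases lt_trichotomy (Complex.arg b) 0 with h4 | h4 | h4
      · refine absurd ⟨?_, ?_⟩ (h _ (S.neg_mem h2))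
        · linarith
        · rw [abs_of_neg h4] at h1
          linarith
      · exact h4
      · refine absurd ⟨h4, ?_⟩ (h _ h2)
        rw [abs_of_pos h4] at h1
        linarith
    rw [← Circle.exp_arg b, h3, Circle.exp_zero]

/-- Splitting of central extensions with small defect. -/
theorem exists_split {C H : Type*} [CommGroup C] [Group H] (B : Subgroup Circle) {ρ : ℝ}
    (hρ : ρ ≤ 1 / 100) (hB : B = ⊤ ∨ ∀ b ∈ B, cn b ≤ ρ → b = 1) (i : B →* H)
    (hi : Function.Injective i) (σ : C → H) (hc : ∀ b c, i b * σ c = σ c * i b)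
    (β : C → C → B) (hβ : ∀ c d, σ c * σ d = i (β c d) * σ (c * d))
    (hs : ∀ c d, cn (β c d) ≤ ρ) :
    ∃ (τ : C →* H) (r : C → B), (∀ c, τ c = i (r c) * σ c) ∧ ∀ c, cn (r c) ≤ 2 * ρ := by
  have hρ0 : 0 ≤ ρ := (cn_nonneg _).trans (hs 1 1)
  rcases hB with rfl | hB
  · -- the circle
    let ex : ℝ → (⊤ : Subgroup Circle) := fun t => ⟨Circle.exp t, trivial⟩
    have ex_add : ∀ s t, ex (s + t) = ex s * ex t := fun s t => Subtype.ext (Circle.exp_add s t)
    have ex_zero : ex 0 = 1 := Subtype.ext Circle.exp_zero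
    have ex_small : ∀ t, cn (ex t) ≤ |t| := fun t => cn_exp_le t
    let e : C → C → ℝ := fun c d => Complex.arg (β c d : Circle)
    have he : ∀ c d, β c d = ex (e c d) := fun c d => Subtype.ext (Circle.exp_arg _).symm
    have hes : ∀ c d, |e c d| ≤ 2 * ρ := fun c d =>
      (abs_arg_le _).trans (by linarith [hs c d])
    let φ : C → ℝ := fun c => ∑' k : ℕ, e (c ^ (2 ^ k)) (c ^ (2 ^ k)) / 2 / 2 ^ k
    have hbd : ∀ c k, ‖e (c ^ (2 ^ k)) (c ^ (2 ^ k)) / 2 / 2 ^ k‖ ≤ 2 * ρ / 2 / 2 ^ k := by
      intro c k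
      rw [norm_div, norm_div, Real.norm_eq_abs]
      have h1 : ‖(2 : ℝ)‖ = 2 := by simp
      have h2 : ‖(2 : ℝ) ^ k‖ = 2 ^ k := by simp
      rw [h1, h2]
      have := hes (c ^ (2 ^ k)) (c ^ (2 ^ k))
      gcongr
    have hsum : ∀ c, Summable fun k : ℕ => e (c ^ (2 ^ k)) (c ^ (2 ^ k)) / 2 / 2 ^ k :=
      fun c => Summable.of_norm_bounded (hasSum_geometric_two' (2 * ρ)).summable (hbd c)
    have hφ : ∀ c, |φ c| ≤ 2 * ρ := fun c =>
      tsum_of_norm_bounded (hasSum_geometric_two' (2 * ρ)) (hbd c)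
    have hrec : ∀ c, 2 * φ c = e c c + φ (c ^ 2) := by
      intro c
      have h1 : φ c = e c c / 2 + ∑' k : ℕ, e (c ^ (2 ^ (k + 1))) (c ^ (2 ^ (k + 1))) / 2 / 2 ^ (k + 1) := by
        have := (hsum c).tsum_eq_zero_add
        simpa using this
      have h2 : ∑' k : ℕ, e (c ^ (2 ^ (k + 1))) (c ^ (2 ^ (k + 1))) / 2 / 2 ^ (k + 1) =
          φ (c ^ 2) / 2 := by
        rw [← tsum_div_const]
        refine tsum_congr fun k => ?_
        have h3 : c ^ (2 ^ (k + 1)) = (c ^ 2) ^ (2 ^ k) := by
          rw [← pow_mul, pow_succ']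
        rw [h3]
        generalize e ((c ^ 2) ^ (2 ^ k)) ((c ^ 2) ^ (2 ^ k)) = u
        rw [pow_succ]
        field_simp
      rw [h1, h2]
      ring
    let t : C → H := fun c => i (ex (-φ c)) * σ c
    let e' : C → C → ℝ := fun c d => e c d - φ c - φ d + φ (c * d)
    have hcomm : ∀ b c, i b * t c = t c * i b := by
      intro b c
      simp only [t]
      rw [mul_assoc, ← hc b c, ← mul_assoc, ← mul_assoc, ← map_mul, ← map_mul, mul_comm b]
    have ht : ∀ c d, t c * t d = i (ex (e' c d)) * t (c * d) := by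
      intro c d
      simp only [t, e']
      calc i (ex (-φ c)) * σ c * (i (ex (-φ d)) * σ d)
          = i (ex (-φ c)) * (σ c * i (ex (-φ d))) * σ d := by group
        _ = i (ex (-φ c)) * (i (ex (-φ d)) * σ c) * σ d := by rw [hc]
        _ = i (ex (-φ c)) * i (ex (-φ d)) * (σ c * σ d) := by group
        _ = i (ex (-φ c)) * i (ex (-φ d)) * (i (ex (e c d)) * σ (c * d)) := by rw [hβ, he]
        _ = i (ex (-φ c) * ex (-φ d) * ex (e c d)) * σ (c * d) := by
            rw [map_mul, map_mul]; group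
        _ = i (ex (e c d - φ c - φ d + φ (c * d)) * ex (-φ (c * d))) * σ (c * d) := by
            rw [← ex_add, ← ex_add, ← ex_add]
            congr 3
            ring
        _ = i (ex (e c d - φ c - φ d + φ (c * d))) * (i (ex (-φ (c * d))) * σ (c * d)) := by
            rw [map_mul]; group
    have he's : ∀ c d, |e' c d| ≤ 8 * ρ := by
      intro c d
      have h1 := hes c d
      have h2 := hφ c
      have h3 := hφ d
      have h4 := hφ (c * d)
      rw [abs_le] at *
      constructor <;> simp only [e'] <;> linarith [h1.1, h1.2, h2.1, h2.2, h3.1, h3.2, h4.1, h4.2]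
    have hsq : ∀ c, t c * t c = t (c ^ 2) := by
      intro c
      rw [ht c c]
      have : e' c c = 0 := by
        have := hrec c
        simp only [e']
        rw [← pow_two]
        linarith
      rw [this, ex_zero, map_one, one_mul, pow_two]
    -- commutators
    let g : C → C → (⊤ : Subgroup Circle) := fun c d => ex (e' c d - e' d c)
    have hg : ∀ c d, t c * t d = i (g c d) * (t d * t c) := by
      intro c d
      have : g c d * ex (e' d c) = ex (e' c d) := by
        simp only [g]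
        rw [← ex_add]
        congr 1
        ring
      calc t c * t d = i (ex (e' c d)) * t (c * d) := ht c d
        _ = i (g c d * ex (e' d c)) * t (d * c) := by rw [this, mul_comm c d]
        _ = i (g c d) * (i (ex (e' d c)) * t (d * c)) := by rw [map_mul, mul_assoc]
        _ = i (g c d) * (t d * t c) := by rw [← ht d c]
    have hcancel : ∀ b b' : (⊤ : Subgroup Circle), ∀ x : H, i b * x = i b' * x → b = b' :=
      fun b b' x h => hi (mul_right_cancel h)
    have hg2 : ∀ c d, g (c ^ 2) d = g c d ^ 2 := by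
      intro c d
      apply hcancel _ _ (t d * t (c ^ 2))
      rw [← hg, ← hsq]
      calc t c * t c * t d = t c * (t c * t d) := by group
        _ = t c * (i (g c d) * (t d * t c)) := by rw [hg]
        _ = (t c * i (g c d)) * t d * t c := by group
        _ = (i (g c d) * t c) * t d * t c := by rw [hcomm]
        _ = i (g c d) * (t c * t d) * t c := by group
        _ = i (g c d) * (i (g c d) * (t d * t c)) * t c := by rw [hg c d]
        _ = i (g c d) * i (g c d) * (t d * (t c * t c)) := by group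
        _ = i (g c d ^ 2) * (t d * (t c * t c)) := by rw [← map_mul, pow_two]
    have hgn : ∀ (n : ℕ) c d, g (c ^ (2 ^ n)) d = g c d ^ (2 ^ n) := by
      intro n
      induction n with
      | zero => intro c d; simp
      | succ n ih =>
        intro c d
        have h3 : c ^ (2 ^ (n + 1)) = (c ^ (2 ^ n)) ^ 2 := by
          rw [← pow_mul, pow_succ]
        rw [h3, hg2, ih, ← pow_mul, ← pow_succ]
    have hg1 : ∀ c d, g c d = 1 := by
      intro c d
      apply Subtype.ext
      apply eq_one_of_dyadic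
      intro n
      have h1 : ((g c d : Circle)) ^ (2 ^ n) = (g (c ^ (2 ^ n)) d : Circle) := by
        rw [hgn]; rfl
      rw [h1]
      refine (ex_small _).trans ?_
      refine (abs_sub _ _).trans ?_
      have h2 := he's (c ^ (2 ^ n)) d
      have h3 := he's d (c ^ (2 ^ n))
      linarith
    have htc : ∀ c d, t c * t d = t d * t c := by
      intro c d
      rw [hg, hg1, map_one, one_mul]
    have hb2 : ∀ c d, ex (e' (c ^ 2) (d ^ 2)) = ex (e' c d) ^ 2 := by
      intro c d
      apply hcancel _ _ (t (c ^ 2 * d ^ 2))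
      rw [← ht, ← hsq, ← hsq, ← mul_pow, ← hsq]
      calc t c * t c * (t d * t d) = t c * (t c * t d) * t d := by group
        _ = t c * (t d * t c) * t d := by rw [htc c d]
        _ = (t c * t d) * (t c * t d) := by group
        _ = (i (ex (e' c d)) * t (c * d)) * (i (ex (e' c d)) * t (c * d)) := by rw [ht]
        _ = i (ex (e' c d)) * (t (c * d) * i (ex (e' c d))) * t (c * d) := by group
        _ = i (ex (e' c d)) * (i (ex (e' c d)) * t (c * d)) * t (c * d) := by rw [hcomm]
        _ = i (ex (e' c d)) * i (ex (e' c d)) * (t (c * d) * t (c * d)) := by group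
        _ = i (ex (e' c d) ^ 2) * (t (c * d) * t (c * d)) := by rw [← map_mul, pow_two]
    have hbn : ∀ (n : ℕ) c d, ex (e' (c ^ (2 ^ n)) (d ^ (2 ^ n))) = ex (e' c d) ^ (2 ^ n) := by
      intro n
      induction n with
      | zero => intro c d; simp
      | succ n ih =>
        intro c d
        have h3 : c ^ (2 ^ (n + 1)) = (c ^ (2 ^ n)) ^ 2 := by
          rw [← pow_mul, pow_succ]
        have h4 : d ^ (2 ^ (n + 1)) = (d ^ (2 ^ n)) ^ 2 := by
          rw [← pow_mul, pow_succ]
        rw [h3, h4, hb2, ih, ← pow_mul, ← pow_succ]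
    have hb1 : ∀ c d, ex (e' c d) = 1 := by
      intro c d
      apply Subtype.ext
      apply eq_one_of_dyadic
      intro n
      have h1 : ((ex (e' c d) : Circle)) ^ (2 ^ n) =
          (ex (e' (c ^ (2 ^ n)) (d ^ (2 ^ n))) : Circle) := by
        rw [hbn]; rfl
      rw [h1]
      refine (ex_small _).trans ?_
      have h2 := he's (c ^ (2 ^ n)) (d ^ (2 ^ n))
      linarith
    refine ⟨MonoidHom.mk' t fun c d => ?_, fun c => ex (-φ c), fun c => rfl, fun c => ?_⟩
    · rw [ht, hb1, map_one, one_mul]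
    · refine (ex_small _).trans ?_
      rw [abs_neg]
      exact hφ c
  · have h1 : ∀ c d, β c d = 1 := fun c d => Subtype.ext (hB _ (β c d).2 (hs c d))
    refine ⟨MonoidHom.mk' σ fun c d => ?_, fun _ => 1, fun c => ?_, fun c => ?_⟩
    · rw [hβ, h1, map_one, one_mul]
    · simp
    · simpa using hρ0

end MP_e326dc_an
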