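import Pool.Agent.Lib.MP_e326dc_an.E.Near
import Pool.Agent.Lib.MP_e326dc_an.E.Split

/-!
# MP_e326dc_an, E8 : small polynomial phases are invariant under small compact groups
-/

open Filter Topology

namespace MP_e326dc_an

/-- size of an element of `ℝ/ℤ` -/
noncomputable def un (x : UnitAddCircle) : ℝ := cn (AddCircle.toCircle x)

@[simp] lemma un_zero : un 0 = 0 := by
  simp [un]

lemma un_sub_le (x y : UnitAddCircle) : un (x - y) ≤ un x + un y := by
  unfold un
  rw [sub_eq_add_neg, AddCircle.toCircle_add, AddCircle.toCircle_neg]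
  refine (cn_mul_le _ _).trans ?_
  rw [cn_inv]

lemma continuous_cn : Continuous cn :=
  continuous_norm.comp ((continuous_subtype_val).sub continuous_const)

lemma continuous_un : Continuous un := continuous_cn.comp AddCircle.continuous_toCircle

lemma un_eq_zero_of_dyadic {x : UnitAddCircle} (h : ∀ k : ℕ, un ((2 ^ k) • x) ≤ 1 / 2) : x = 0 := by
  have h1 : AddCircle.toCircle x = 1 := by
    apply eq_one_of_dyadic
    intro k
    have := h k
    unfold un at this
    rwa [AddCircle.toCircle_nsmul] at this
  rw [← AddCircle.toCircle_zero] at h1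
  exact AddCircle.injective_toCircle one_ne_zero h1

/-- small polynomial sequences in `ℝ/ℤ` are constant -/
lemma const_of_polyLE {d : ℕ} : ∀ {q : ℤ → UnitAddCircle}, PolyLE d q →
    (∀ n, un (q n) ≤ 1 / 2 ^ (d + 1)) → ∀ n m, q n = q m := by
  induction d with
  | zero =>
    intro q hq _ n m
    exact hq n m
  | succ d ih =>
    intro q hq hs
    have h1 : ∀ h n m : ℤ, q (n + h) - q n = q (m + h) - q m := by
      intro h n m
      refine ih (hq h) (fun n => ?_) n m
      refine (un_sub_le _ _).trans ?_
      have h2 := hs (n + h)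
      have h3 := hs n
      have h4 : (1 : ℝ) / 2 ^ (d + 1) = 1 / 2 ^ (d + 1 + 1) + 1 / 2 ^ (d + 1 + 1) := by
        rw [pow_succ (2 : ℝ) (d + 1)]
        field_simp
        norm_num
      linarith
    have h5 : ∀ h : ℤ, q h - q 0 = 0 := by
      intro h
      apply un_eq_zero_of_dyadic
      intro k
      have h6 : ∀ m : ℕ, q (m * h) - q 0 = m • (q h - q 0) := by
        intro m
        induction m with
        | zero => simp
        | succ m ihm =>
          have h7 := h1 h (m * h) 0
          rw [zero_add] at h7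
          rw [succ_nsmul, ← ihm, ← h7]
          push_cast
          rw [add_mul, one_mul]
          abel
      have h8 := h6 (2 ^ k)
      rw [← h8]
      refine (un_sub_le _ _).trans ?_
      have h2 := hs ((2 ^ k : ℕ) * h)
      have h3 := hs 0
      have h4 : (1 : ℝ) / 2 ^ (d + 1 + 1) ≤ 1 / 4 := by
        apply one_div_le_one_div_of_le (by norm_num)
        rw [pow_succ, pow_succ]
        have : (1 : ℝ) ≤ 2 ^ d := one_le_pow₀ (by norm_num)
        nlinarith
      linarith
    intro n m
    have h6 := h5 n
    have h7 := h5 m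
    rw [sub_eq_zero] at h6 h7
    rw [h6, h7]

/-- differences of polynomial maps -/
lemma PolyLE.sub' {d : ℕ} : ∀ {p q : ℤ → UnitAddCircle}, PolyLE d p → PolyLE d q →
    PolyLE d fun n => p n - q n := by
  induction d with
  | zero =>
    intro p q hp hq n m
    change p n - q n = p m - q m
    rw [hp n m, hq n m]
  | succ d ih =>
    intro p q hp hq h
    have := ih (hp h) (hq h)
    have h2 : (fun x => p (x + h) - q (x + h) - (p x - q x)) =
        fun n => p (n + h) - p n - (q (n + h) - q n) := by
      funext n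
      abel
    change PolyLE d (fun x => p (x + h) - q (x + h) - (p x - q x))
    rw [h2]
    exact this

/-- A polynomial phase is invariant under all groups which are small enough. -/
theorem exists_near_phase {Y : DSys} (hY : IsMin Y.T) (p : C(Y.X, UnitAddCircle)) {d : ℕ}
    (hp : ∀ x, PolyLE d (fun n : ℤ => p ((Y.T ^ n) x))) :
    ∃ W ∈ 𝓝ˢ (Set.diagonal Y.X), ∀ (C : Type) [CommGroup C] [TopologicalSpace C] (a : GAct C Y),
      (∀ c, Near W (a.hom c)) → ∀ c x, p (a.hom c x) = p x := by
  have hW : {q : Y.X × Y.X | un (p q.2 - p q.1) < 1 / 2 ^ (d + 1)} ∈ 𝓝ˢ (Set.diagonal Y.X) := by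
    have h1 : Continuous fun q : Y.X × Y.X => un (p q.2 - p q.1) :=
      continuous_un.comp ((p.continuous.comp continuous_snd).sub (p.continuous.comp continuous_fst))
    refine (isOpen_lt h1 continuous_const).mem_nhdsSet.2 ?_
    rintro ⟨x, y⟩ hxy
    obtain rfl : x = y := hxy
    change un (p x - p x) < _
    rw [sub_self, un_zero]
    positivity
  refine ⟨_, hW, ?_⟩
  intro C _ _ a ha
  have ha' : ∀ c x, un (p (a.hom c x) - p x) < 1 / 2 ^ (d + 1) := fun c x => ha c x
  have hzc : ∀ c (n : ℤ) x, (Y.T ^ n) (a.hom c x) = a.hom c ((Y.T ^ n) x) := by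
    intro c n x
    have h1 : Commute Y.T (a.hom c) := by
      ext x
      exact (a.comm c x).symm
    exact DFunLike.congr_fun (h1.zpow_left n) x
  -- constant along orbits
  have h1 : ∀ c x (n : ℤ), p (a.hom c ((Y.T ^ n) x)) - p ((Y.T ^ n) x) = p (a.hom c x) - p x := by
    intro c x n
    have h2 : PolyLE d (fun n : ℤ => p ((Y.T ^ n) (a.hom c x)) - p ((Y.T ^ n) x)) :=
      PolyLE.sub' (hp _) (hp _)
    have h3 := const_of_polyLE h2 (fun n => by rw [hzc]; exact (ha' c _).le) n 0
    simp only [hzc, zpow_zero] at h3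
    exact h3
  have h2 : ∀ c x y, p (a.hom c x) - p x = p (a.hom c y) - p y := by
    intro c x y
    have h3 : IsClosed {z | p (a.hom c z) - p z = p (a.hom c x) - p x} :=
      isClosed_eq ((p.continuous.comp (a.hom c).continuous).sub p.continuous) continuous_const
    have h4 : Set.range (fun n : ℤ => (Y.T ^ n) x) ⊆ {z | p (a.hom c z) - p z =
        p (a.hom c x) - p x} := by
      rintro _ ⟨n, rfl⟩
      exact h1 c x n
    have h5 : y ∈ closure (Set.range fun n : ℤ => (Y.T ^ n) x) := by
      rw [(hY x).closure_eq]; trivial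
    exact (closure_minimal h4 h3 h5).symm
  intro c x
  rw [← sub_eq_zero]
  apply un_eq_zero_of_dyadic
  intro k
  have h3 : ∀ m : ℕ, m • (p (a.hom c x) - p x) = p (a.hom (c ^ m) x) - p x := by
    intro m
    induction m with
    | zero => simp
    | succ m ih =>
      rw [succ_nsmul, ih, h2 c x (a.hom (c ^ m) x), ← a.hom_mul, ← pow_succ']
      abel
  rw [h3]
  refine (ha' _ _).le.trans ?_
  apply one_div_le_one_div_of_le (by norm_num)
  rw [pow_succ]
  have : (1 : ℝ) ≤ 2 ^ d := one_le_pow₀ (by norm_num)
  linarith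

end MP_e326dc_an
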