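import Pool.Agent.Lib.MP_e326dc_an.E.QuotStep
import Pool.Agent.Lib.MP_e326dc_an.E.Phase
import Pool.Agent.Lib.MP_e326dc_an.E.Inv
import Pool.Agent.Lib.MP_e326dc_an.E3.Char

/-!
# MP_e326dc_an, E8 : minimal systems of finite order are approximated by Lie towers
-/

open Filter Topology

namespace MP_e326dc_an

lemma LieChain.mono {j j' : ℕ} (hj : j' ≤ j) {Z P : DSys} {f : P.X → Z.X}
    (h : LieChain j Z P f) : LieChain j' Z P f := by
  induction h with
  | nil => exact .nil
  | cons hl L _ ih => exact .cons (hj.trans_lt hl) L ih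

lemma LieChain.trans {j : ℕ} {Z Y P : DSys} {f : P.X → Y.X} {g : Y.X → Z.X}
    (h : LieChain j Y P f) (h' : LieChain j Z Y g) : ∃ k, LieChain j Z P k := by
  induction h with
  | nil => exact ⟨g, h'⟩
  | cons hl L _ ih =>
    obtain ⟨k, hk⟩ := ih
    exact ⟨_, .cons hl L hk⟩

lemma LieChain.tower {Z P : DSys} {f : P.X → Z.X} (h : LieChain 0 Z P f) (hZ : Z.Ord 0) :
    LieTower P := by
  induction h with
  | nil => exact .point hZ
  | cons _ L _ ih => exact .step L ih

/-- E7 along a chain -/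
theorem LieChain.exists_action (hlift : ∀ {P P' : DSys} {l : ℕ} (L : LieStep P P' l), L.Liftable)
    {j : ℕ} {Z Y : DSys} {f : Y.X → Z.X} (h : LieChain j Z Y f) :
    ∀ W ∈ 𝓝ˢ (Set.diagonal Y.X), ∃ WZ ∈ 𝓝ˢ (Set.diagonal Z.X), ∀ (C : Type) [CommGroup C]
      [TopologicalSpace C] [IsTopologicalGroup C] [CompactSpace C] (aZ : GAct C Z),
      (∀ c, IsTransl Z.T (aZ.hom c)) → (∀ c, Near WZ (aZ.hom c)) → aZ.Level j →
      ∃ aY : GAct C Y, (∀ c, IsTransl Y.T (aY.hom c)) ∧ (∀ c, Near W (aY.hom c)) ∧ aY.Level j ∧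
        ∃ f', LieChain j aZ.quot aY.quot f' := by
  induction h with
  | nil =>
    intro W hW
    exact ⟨W, hW, fun C _ _ _ _ aZ h1 h2 h3 => ⟨aZ, h1, h2, h3, _, .nil⟩⟩
  | @cons P P' l hl L f _ ih =>
    intro W hW
    obtain ⟨W', hW', h1⟩ := (hlift L).exists_action hW
    obtain ⟨WZ, hWZ, h2⟩ := ih W' hW'
    refine ⟨WZ, hWZ, ?_⟩
    intro C _ _ _ _ aZ hZ1 hZ2 hZ3
    obtain ⟨a', ha'1, ha'2, ha'3, f', hf'⟩ := h2 C aZ hZ1 hZ2 hZ3
    obtain ⟨a, ha1, ha2, ha3⟩ := h1 C a' ha'1 ha'2
    have ha4 := L.level_of_fac a a' ha3 hl.le ha'3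
    refine ⟨a, ha1, ha2, ha4, _, .cons hl (L.quot a a' ha3 ?_ hl.le ha4) hf'⟩
    intro c b x
    exact (hlift L).comm _ (ha1 c) b x

/-- chains between the orbit systems of closed subgroups of the structure group -/
theorem exists_chain_restr {A : Type} [CommGroup A] [TopologicalSpace A] [IsTopologicalGroup A]
    [CompactSpace A] {Z : DSys} (a : GAct A Z) {j : ℕ} (hj : 1 ≤ j) (hZ : Z.Ord j)
    (hs : ∀ c, IsStr Z.T j (a.hom c)) {m : ℕ} (χ : Fin m → A →* Circle)
    (hχ : ∀ i, Continuous (χ i)) (s : Finset (Fin m)) :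
    ∀ (K : Subgroup A) [CompactSpace K], (∀ c, c ∈ K ↔ ∀ i ∈ s, χ i c = 1) →
      ∃ (_ : CompactSpace (⊤ : Subgroup A)) (f : _ → _),
        LieChain (j - 1) (a.restr (⊤ : Subgroup A)).quot (a.restr K).quot f := by
  classical
  have htop : CompactSpace (⊤ : Subgroup A) :=
    isCompact_iff_compactSpace.1 (by simpa using isCompact_univ)
  induction s using Finset.induction_on with
  | empty =>
    intro K _ hK
    have : K = ⊤ := by
      rw [eq_top_iff]
      intro c _
      rw [hK]
      simp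
    subst this
    exact ⟨htop, _, .nil⟩
  | insert i s hi ih =>
    intro K' _ hK'
    let K : Subgroup A :=
      { carrier := {c | ∀ i ∈ s, χ i c = 1}
        mul_mem' := by
          intro c d hc hd i hi
          rw [map_mul, hc i hi, hd i hi, one_mul]
        one_mem' := by
          intro i _
          exact map_one _
        inv_mem' := by
          intro c hc i hi
          rw [map_inv, hc i hi, inv_one] }
    have hKcl : IsClosed (K : Set A) := by
      have : (K : Set A) = ⋂ i ∈ s, {c | χ i c = 1} := by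
        ext c
        simp only [Set.mem_iInter]
        exact Iff.rfl
      rw [this]
      exact isClosed_biInter fun i _ => isClosed_eq (hχ i) continuous_const
    have : CompactSpace K := isCompact_iff_compactSpace.1 hKcl.isCompact
    obtain ⟨_, f, hf⟩ := ih K (fun c => Iff.rfl)
    obtain ⟨L⟩ := exists_lieStep_restr a hj hZ hs K K' (χ i) (hχ i) (by
      intro c
      rw [hK']
      simp only [Finset.mem_insert, forall_eq_or_imp]
      exact and_comm)
    exact ⟨htop, _, .cons (by omega) L hf⟩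

/-- composition of factor maps -/
def DFactor.comp {P Q R : DSys} (g : DFactor Q R) (f : DFactor P Q) : DFactor P R where
  π := g.π ∘ f.π
  cont := g.cont.comp f.cont
  surj := g.surj.comp f.surj
  equi x := by simp only [Function.comp_apply, f.equi, g.equi]

/-- **E8**, downward induction over the order. -/
theorem exists_lieChain (hlift : ∀ {P P' : DSys} {l : ℕ} (L : LieStep P P' l), L.Liftable)
    (hstr : ∀ {P : DSys} {l : ℕ}, 1 ≤ l → P.Ord l → ∀ g, IsStr P.T l g → IsTransl P.T g)
    {P : DSys} {s : ℕ} (hP : P.Ord s) {m n : ℕ}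
    (F : Fin m → C(P.X, ℂ)) (p : Fin n → C(P.X, UnitAddCircle))
    (hp : ∀ i, ∃ d, ∀ x, PolyLE d (fun n : ℤ => p i ((P.T ^ n) x))) :
    ∀ k j, j + k = s → ∀ ε : ℝ, 0 < ε → ∃ (Y Z : DSys) (f : Y.X → Z.X) (_ : LieChain j Z Y f)
      (_ : Z.Ord j) (_ : IsMin Y.T) (π : DFactor P Y) (F' : Fin m → C(Y.X, ℂ))
      (p' : Fin n → C(Y.X, UnitAddCircle)),
      (∀ i x, ‖F i x - F' i (π.π x)‖ ≤ ε) ∧ (∀ i x, p i x = p' i (π.π x)) ∧
      (SecondCountableTopology P.X → SecondCountableTopology Y.X) := by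
  classical
  intro k
  induction k with
  | zero =>
    intro j hj ε hε
    obtain rfl : j = s := by omega
    refine ⟨P, P, id, .nil, hP, hP.min, ⟨id, continuous_id, Function.surjective_id,
      fun _ => rfl⟩, F, p, fun i x => ?_, fun i x => rfl, fun h => h⟩
    simp only [id, sub_self, norm_zero]
    exact hε.le
  | succ k ih =>
    intro j hj ε hε
    obtain ⟨Y, Z, f, hch, hZ, hYmin, π, F', p', hF', hp', hsc⟩ :=
      ih (j + 1) (by omega) (ε / 2) (by positivity)
    -- polynomial phases on `Y`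
    have hpoly : ∀ i, ∃ d, ∀ y, PolyLE d (fun n : ℤ => p' i ((Y.T ^ n) y)) := by
      intro i
      obtain ⟨d, hd⟩ := hp i
      refine ⟨d, fun y => ?_⟩
      obtain ⟨x, rfl⟩ := π.surj y
      have h1 : (fun n : ℤ => p' i ((Y.T ^ n) (π.π x))) = fun n : ℤ => p i ((P.T ^ n) x) := by
        funext n
        rw [← equi_zpow π.equi, hp']
      rw [h1]
      exact hd x
    choose d hd using hpoly
    choose WF hWF hWF2 using fun i => exists_near_fun (F' i) (δ := ε / 4) (by positivity)
    choose Wp hWp hWp2 using fun i => exists_near_phase hYmin (p' i) (hd i)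
    have hW : ((⋂ i, WF i) ∩ ⋂ i, Wp i) ∈ 𝓝ˢ (Set.diagonal Y.X) :=
      Filter.inter_mem (Filter.iInter_mem.2 hWF) (Filter.iInter_mem.2 hWp)
    obtain ⟨WZ, hWZ, hact⟩ := hch.exists_action hlift _ hW
    obtain ⟨A, _, _, _, _, _, a, ha1, ha2, _⟩ := exists_strGroup (by omega) hZ
    obtain ⟨m', χ, hχ, hχV⟩ := exists_torus_hom (a.eventually_near hWZ)
    let K : Subgroup A :=
      { carrier := {c | ∀ i, χ i c = 1}
        mul_mem' := by
          intro c d hc hd i
          rw [map_mul, hc i, hd i, one_mul]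
        one_mem' := by
          intro i
          exact map_one _
        inv_mem' := by
          intro c hc i
          rw [map_inv, hc i, inv_one] }
    have hKcl : IsClosed (K : Set A) := by
      have : (K : Set A) = ⋂ i, {c | χ i c = 1} := by
        ext c
        simp only [Set.mem_iInter]
        exact Iff.rfl
      rw [this]
      exact isClosed_iInter fun i => isClosed_eq (hχ i) continuous_const
    have : CompactSpace K := isCompact_iff_compactSpace.1 hKcl.isCompact
    obtain ⟨aY, hY1, hY2, hY3, f', hf'⟩ := hact K (a.restr K)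
      (fun c => hstr (by omega) hZ _ (ha1 c)) (fun c => hχV c.1 c.2)
      ((a.restr K).level_of_str hZ fun c => ha1 c)
    obtain ⟨htop, f'', hf''⟩ := exists_chain_restr a (by omega) hZ ha1 χ hχ Finset.univ K
      (fun c => ⟨fun h i _ => h i, fun h i => h i (Finset.mem_univ i)⟩)
    obtain ⟨g, hg⟩ := (hf'.mono (Nat.le_succ j)).trans hf''
    have hn1 : ∀ i c, Near (WF i) (aY.hom c) := fun i c =>
      (near_inter.1 (hY2 c)).1.mono (Set.iInter_subset _ i)
    have hn2 : ∀ i c, Near (Wp i) (aY.hom c) := fun i c =>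
      (near_inter.1 (hY2 c)).2.mono (Set.iInter_subset _ i)
    choose F'' hF'' using fun i => aY.exists_approx (F' i) fun c x => hWF2 i _ (hn1 i c) x
    choose p'' hp'' using fun i => aY.exists_desc (p' i) (hWp2 i K aY (hn2 i))
    refine ⟨aY.quot, (a.restr (⊤ : Subgroup A)).quot, g, hg, ?_, ?_, aY.fac.comp π, F'', p'',
      fun i x => ?_, fun i x => ?_, fun h => ?_⟩
    · exact (a.restr (⊤ : Subgroup A)).quot_ord_of_str hZ (fun c => ha1 c) fun x y hxy => by
        obtain ⟨c, hc⟩ := ha2 x y hxy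
        exact ⟨⟨c, trivial⟩, hc⟩
    · let := aY.mulAction
      have hq := aY.isQuot aY.fac aY.fac_eq_iff
      exact hq.isMin hYmin
    · have h1 := hF' i x
      have h2 := hF'' i (π.π x)
      calc ‖F i x - F'' i ((aY.fac.comp π).π x)‖
          = ‖(F i x - F' i (π.π x)) + (F' i (π.π x) - F'' i (aY.fac.π (π.π x)))‖ := by
            congr 1
            change F i x - F'' i (aY.fac.π (π.π x)) = _
            ring
        _ ≤ ε / 2 + 2 * (ε / 4) := (norm_add_le _ _).trans (add_le_add h1 h2)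
        _ = ε := by ring
    · rw [hp']
      exact (hp'' i (π.π x)).symm
    · have h2 := hsc h
      exact aY.isOpenQuotientMap_fac.isQuotientMap.secondCountableTopology
        aY.isOpenQuotientMap_fac.isOpenMap

/-- **E8.** Minimal systems of finite order are approximated by Lie towers; polynomial phases
descend exactly. -/
theorem exists_lieTower_of (hlift : ∀ {P P' : DSys} {l : ℕ} (L : LieStep P P' l), L.Liftable)
    (hstr : ∀ {P : DSys} {l : ℕ}, 1 ≤ l → P.Ord l → ∀ g, IsStr P.T l g → IsTransl P.T g)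
    {P : DSys} {s : ℕ} (hP : P.Ord s) {m n : ℕ}
    (F : Fin m → C(P.X, ℂ)) (p : Fin n → C(P.X, UnitAddCircle))
    (hp : ∀ i, ∃ d, ∀ x, PolyLE d (fun n : ℤ => p i ((P.T ^ n) x))) {ε : ℝ} (hε : 0 < ε) :
    ∃ (Y : DSys) (_ : LieTower Y) (π : DFactor P Y) (F' : Fin m → C(Y.X, ℂ))
      (p' : Fin n → C(Y.X, UnitAddCircle)),
      (∀ i x, ‖F i x - F' i (π.π x)‖ ≤ ε) ∧ (∀ i x, p i x = p' i (π.π x)) ∧
      (SecondCountableTopology P.X → SecondCountableTopology Y.X) := by
  obtain ⟨Y, Z, f, hch, hZ, _, π, F', p', h1, h2, h3⟩ :=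
    exists_lieChain hlift hstr hP F p hp s 0 (by omega) ε hε
  exact ⟨Y, hch.tower hZ, π, F', p', h1, h2, h3⟩

end MP_e326dc_an
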