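import Pool.Agent.Lib.MP_e326dc_an.E.Act

/-!
# MP_e326dc_an : small homeomorphisms of compact Hausdorff spaces
-/

open Filter Topology Uniformity

namespace MP_e326dc_an

section near

variable {X : Type*}

lemma Near.mono {W W' : Set (X × X)} (h : W ⊆ W') {g : X → X} (hg : Near W g) : Near W' g :=
  fun x => h (hg x)

lemma near_inter {W W' : Set (X × X)} {g : X → X} : Near (W ∩ W') g ↔ Near W g ∧ Near W' g :=
  ⟨fun h => ⟨fun x => (h x).1, fun x => (h x).2⟩, fun h x => ⟨h.1 x, h.2 x⟩⟩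

variable [TopologicalSpace X]

lemma near_id {W : Set (X × X)} (hW : W ∈ 𝓝ˢ (Set.diagonal X)) : Near W (id : X → X) :=
  fun _ => subset_of_mem_nhdsSet hW rfl

lemma near_one {W : Set (X × X)} (hW : W ∈ 𝓝ˢ (Set.diagonal X)) :
    Near W (⇑(1 : X ≃ₜ X)) := near_id hW

/-- pull back a neighbourhood of the diagonal by a continuous map -/
lemma preimage_mem_nhdsSet_diagonal {Y : Type*} [TopologicalSpace Y] {f : X → Y}
    (hf : Continuous f) {W : Set (Y × Y)} (hW : W ∈ 𝓝ˢ (Set.diagonal Y)) :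
    {q : X × X | (f q.1, f q.2) ∈ W} ∈ 𝓝ˢ (Set.diagonal X) := by
  have h1 : Continuous fun q : X × X => (f q.1, f q.2) :=
    (hf.comp continuous_fst).prodMk (hf.comp continuous_snd)
  have h2 : Set.MapsTo (fun q : X × X => (f q.1, f q.2)) (Set.diagonal X) (Set.diagonal Y) := by
    intro q hq
    exact congrArg f hq
  exact (h1.tendsto_nhdsSet h2) hW

variable [CompactSpace X] [T2Space X]

lemma exists_comp_nhdsSet {W : Set (X × X)} (hW : W ∈ 𝓝ˢ (Set.diagonal X)) :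
    ∃ V ∈ 𝓝ˢ (Set.diagonal X), V ⊆ W ∧ (∀ x y, (x, y) ∈ V → (y, x) ∈ V) ∧
      ∀ x y z, (x, y) ∈ V → (y, z) ∈ V → (x, z) ∈ W := by
  let _ : UniformSpace X := uniformSpaceOfCompactR1 (γ := X)
  rw [nhdsSet_diagonal_eq_uniformity] at hW ⊢
  obtain ⟨V, hV, hs, hc⟩ := comp_symm_mem_uniformity_sets hW
  refine ⟨V, hV, ?_, fun x y h => ?_, fun x y z h1 h2 => hc ⟨y, h1, h2⟩⟩
  · rintro ⟨x, y⟩ h
    exact hc ⟨x, refl_mem_uniformity hV, h⟩
  · exact hs.symm x y h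

/-- the basic smallness lemma for the group of homeomorphisms -/
lemma exists_near_mul {W : Set (X × X)} (hW : W ∈ 𝓝ˢ (Set.diagonal X)) :
    ∃ V ∈ 𝓝ˢ (Set.diagonal X), V ⊆ W ∧ (∀ g : X ≃ₜ X, Near V g → Near V ⇑g⁻¹) ∧
      ∀ g h : X ≃ₜ X, Near V g → Near V h → Near W ⇑(g * h) := by
  obtain ⟨V, hV, hVW, hs, hc⟩ := exists_comp_nhdsSet hW
  refine ⟨V, hV, hVW, fun g hg x => ?_, fun g h hg hh x => hc _ _ _ (hh x) (hg (h x))⟩
  have := hs _ _ (hg (g⁻¹ x))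
  have h2 : g (g⁻¹ x) = x := g.apply_symm_apply x
  rwa [h2] at this

/-- products of three small homeomorphisms and inverses -/
lemma exists_near_mul3 {W : Set (X × X)} (hW : W ∈ 𝓝ˢ (Set.diagonal X)) :
    ∃ V ∈ 𝓝ˢ (Set.diagonal X), V ⊆ W ∧ (∀ g : X ≃ₜ X, Near V g → Near V ⇑g⁻¹) ∧
      (∀ g h : X ≃ₜ X, Near V g → Near V h → Near W ⇑(g * h)) ∧
      ∀ g h k : X ≃ₜ X, Near V g → Near V h → Near V k → Near W ⇑(g * h * k) := by
  obtain ⟨V1, hV1, h1, _, h3⟩ := exists_near_mul hW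
  obtain ⟨V2, hV2, k1, k2, k3⟩ := exists_near_mul hV1
  refine ⟨V2, hV2, k1.trans h1, k2, fun g h hg hh => (k3 g h hg hh).mono h1,
    fun g h k hg hh hk => h3 _ _ (k3 g h hg hh) (hk.mono k1)⟩

/-- powers of small homeomorphisms -/
lemma exists_near_pow {W : Set (X × X)} (hW : W ∈ 𝓝ˢ (Set.diagonal X)) (n : ℕ) :
    ∃ V ∈ 𝓝ˢ (Set.diagonal X), V ⊆ W ∧
      ∀ g : X ≃ₜ X, Near V g → ∀ k ≤ n, Near W ⇑(g ^ k) := by
  induction n generalizing W with
  | zero =>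
    refine ⟨W, hW, subset_rfl, fun g _ k hk => ?_⟩
    obtain rfl : k = 0 := by omega
    rw [pow_zero]
    exact near_one hW
  | succ n ih =>
    obtain ⟨V1, hV1, h1, _, h3⟩ := exists_near_mul hW
    obtain ⟨V2, hV2, h2, h4⟩ := ih hV1
    refine ⟨V2, hV2, h2.trans h1, fun g hg k hk => ?_⟩
    rcases Nat.lt_or_ge n k with hk' | hk'
    · obtain rfl : k = n + 1 := by omega
      rw [pow_succ]
      exact h3 _ _ (h4 g hg n le_rfl) (hg.mono h2)
    · exact (h4 g hg k hk').mono h1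

/-- commutators of small homeomorphisms with a fixed homeomorphism are small -/
lemma exists_near_comm (T : X ≃ₜ X) {W : Set (X × X)} (hW : W ∈ 𝓝ˢ (Set.diagonal X)) :
    ∃ V ∈ 𝓝ˢ (Set.diagonal X), ∀ g : X ≃ₜ X, Near V g → Near W ⇑(g * T * g⁻¹ * T⁻¹) := by
  obtain ⟨V1, hV1, h1, h2, h3⟩ := exists_near_mul hW
  have hV2 := preimage_mem_nhdsSet_diagonal T.continuous hV1
  obtain ⟨V, hV, k1, k2, _⟩ := exists_near_mul (Filter.inter_mem hV1 hV2)
  refine ⟨V, hV, fun g hg => ?_⟩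
  have : Near V1 ⇑(T * g⁻¹ * T⁻¹) := by
    intro x
    have h5 : (T (T⁻¹ x), T (g⁻¹ (T⁻¹ x))) ∈ V1 := (k1 (k2 g hg (T⁻¹ x))).2
    have h6 : T (T⁻¹ x) = x := T.apply_symm_apply x
    rwa [h6] at h5
  have h4 := h3 g (T * g⁻¹ * T⁻¹) (hg.mono (k1.trans Set.inter_subset_left)) this
  rwa [← mul_assoc, ← mul_assoc] at h4

omit [T2Space X] in
/-- a continuous family of maps which is the identity at `c₀` is small near `c₀` -/
lemma eventually_near {C : Type*} [TopologicalSpace C] {f : C → X → X}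
    (hf : Continuous fun q : C × X => f q.1 q.2) {c₀ : C} (h : ∀ x, f c₀ x = x)
    {W : Set (X × X)} (hW : W ∈ 𝓝ˢ (Set.diagonal X)) : ∀ᶠ c in 𝓝 c₀, Near W (f c) := by
  have h1 : ∀ x ∈ (Set.univ : Set X), ∀ᶠ q : C × X in 𝓝 (c₀, x), (q.2, f q.1 q.2) ∈ W := by
    intro x _
    have h2 : Continuous fun q : C × X => (q.2, f q.1 q.2) := continuous_snd.prodMk hf
    have h3 : W ∈ 𝓝 ((x, f c₀ x) : X × X) := by
      rw [h x]
      exact mem_nhdsSet_iff_forall.1 hW _ rfl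
    exact h2.continuousAt.eventually h3
  have := isCompact_univ.eventually_forall_of_forall_eventually
    (P := fun c x => (x, f c x) ∈ W) h1
  filter_upwards [this] with c hc x
  exact hc x trivial

/-- if a free compact action moves some point by little then the element is small -/
lemma GAct.exists_near {C : Type} [CommGroup C] [TopologicalSpace C] [CompactSpace C] {P : DSys}
    (a : GAct C P) {U : Set C} (hU : U ∈ 𝓝 1) :
    ∃ W ∈ 𝓝ˢ (Set.diagonal P.X), ∀ c x, (x, a.hom c x) ∈ W → c ∈ U := by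
  obtain ⟨U', hU', hUo, h1⟩ := mem_nhds_iff.1 hU
  have hK : IsCompact ((fun q : C × P.X => (q.2, a.hom q.1 q.2)) '' (U'ᶜ ×ˢ Set.univ)) :=
    ((hUo.isClosed_compl.isCompact).prod isCompact_univ).image (continuous_snd.prodMk a.cont)
  refine ⟨((fun q : C × P.X => (q.2, a.hom q.1 q.2)) '' (U'ᶜ ×ˢ Set.univ))ᶜ, ?_, ?_⟩
  · refine hK.isClosed.isOpen_compl.mem_nhdsSet.2 ?_
    rintro ⟨x, y⟩ hxy ⟨⟨c, z⟩, ⟨hc, _⟩, h⟩
    obtain rfl : x = y := hxy
    simp only [Prod.mk.injEq] at h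
    obtain ⟨rfl, h⟩ := h
    exact hc (a.free c _ h ▸ h1)
  · intro c x h
    by_contra hc
    exact h ⟨(c, x), ⟨fun h' => hc (hU' h'), trivial⟩, rfl⟩

lemma GAct.eventually_near {C : Type} [CommGroup C] [TopologicalSpace C] {P : DSys}
    (a : GAct C P) {W : Set (P.X × P.X)} (hW : W ∈ 𝓝ˢ (Set.diagonal P.X)) :
    ∀ᶠ c in 𝓝 (1 : C), Near W (a.hom c) :=
  MP_e326dc_an.eventually_near (f := fun c x => a.hom c x) a.cont (fun x => a.hom_one x) hW

end near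

end MP_e326dc_an
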