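import Pool.Agent.Lib.MP_e326dc_an.E.Transl
import Pool.Agent.Lib.MP_e326dc_an.E.Near

set_option autoImplicit false

/-!
# MP_e326dc_an : small vertical translations are elements of the structure group (E5)
-/

open Filter Topology

namespace MP_e326dc_an

/-! ### Differences of sequences and of functions on a system -/

/-- backward difference along the orbits -/
def bdiff {X : Type*} (T : X → X) (f : X → ℝ) : X → ℝ := fun x => f x - f (T x)

/-- a bounded function whose iterated differences along `T` vanish is invariant -/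
theorem inv_of_bdiff_eq_zero {X : Type*} (T : X ≃ X) (l : ℕ) :
    ∀ (f : X → ℝ) (C : ℝ), (∀ x, |f x| ≤ C) → (∀ x, (bdiff T.symm)^[l + 1] f x = 0) →
      ∀ x, f (T.symm x) = f x := by
  induction l with
  | zero =>
    intro f C _ h x
    have := h x
    simp only [zero_add, Function.iterate_one, bdiff] at this
    linarith
  | succ l ih =>
    intro f C hC h x
    have h1 := ih (bdiff T.symm f) (C + C) (fun x => by
      have := abs_sub (f x) (f (T.symm x))
      have := hC x
      have := hC (T.symm x)
      simp only [bdiff]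
      linarith) (fun x => by
      have := h x
      rwa [Function.iterate_succ_apply] at this)
    -- the difference is constant along the orbit of `x`
    have h2 : ∀ n : ℕ, bdiff T.symm f ((T.symm)^[n] x) = bdiff T.symm f x := by
      intro n
      induction n with
      | zero => rfl
      | succ n ihn => rw [Function.iterate_succ_apply', h1, ihn]
    have h3 : ∀ n : ℕ, f x - f ((T.symm)^[n] x) = n * bdiff T.symm f x := by
      intro n
      induction n with
      | zero => simp
      | succ n ihn =>
        have h4 := h2 n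
        have h5 : bdiff T.symm f ((T.symm)^[n] x) =
            f ((T.symm)^[n] x) - f ((T.symm)^[n + 1] x) := by
          rw [Function.iterate_succ_apply']
          rfl
        rw [h5] at h4
        push_cast
        linarith
    by_contra hne
    have hc : 0 < |bdiff T.symm f x| := abs_pos.2 fun h0 => hne (by
      simp only [bdiff] at h0
      linarith)
    obtain ⟨n, hn⟩ := exists_nat_gt (2 * C / |bdiff T.symm f x|)
    rw [div_lt_iff₀ hc] at hn
    have h6 : (n : ℝ) * |bdiff T.symm f x| = |f x - f ((T.symm)^[n] x)| := by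
      rw [h3, abs_mul, Nat.abs_cast]
    have h7 := abs_sub (f x) (f ((T.symm)^[n] x))
    have := hC x
    have := hC ((T.symm)^[n] x)
    linarith

theorem abs_bdiff_iterate_le {X : Type*} (T : X → X) {f : X → ℝ} {C : ℝ} (hC : ∀ x, |f x| ≤ C)
    (n : ℕ) (x : X) : |(bdiff T)^[n] f x| ≤ 2 ^ n * C := by
  induction n generalizing x with
  | zero => simpa using hC x
  | succ n ih =>
    rw [Function.iterate_succ_apply']
    have h1 := abs_sub ((bdiff T)^[n] f x) ((bdiff T)^[n] f (T x))
    have h2 := ih x
    have h3 := ih (T x)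
    show |(bdiff T)^[n] f x - (bdiff T)^[n] f (T x)| ≤ _
    rw [pow_succ]
    linarith

/-! ### Vertical translations -/

section step
variable {P P' : DSys} {l : ℕ} (L : LieStep P P' l)

theorem LieStep.act_inj {b c : L.B} {x : P.X} (h : L.act.hom b x = L.act.hom c x) : b = c := by
  have h1 : L.act.hom (c⁻¹ * b) x = x := by
    rw [L.act.hom_mul, h, L.act.hom_inv_hom]
  have h2 := L.act.free _ _ h1
  rw [inv_mul_eq_one] at h2
  exact h2.symm

theorem LieStep.act_comm (b c : L.B) (x : P.X) :
    L.act.hom b (L.act.hom c x) = L.act.hom c (L.act.hom b x) := by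
  rw [← L.act.hom_mul, ← L.act.hom_mul, mul_comm]

variable {k : P.X ≃ₜ P.X} (hk : IsTransl P.T k) {b : P.X → L.B}
  (hb : ∀ x, k x = L.act.hom (b x) x)

include hk hb in
theorem LieStep.vert_inv (c : L.B) (x : P.X) : b (L.act.hom c x) = b x := by
  apply L.act_inj (x := L.act.hom c x)
  rw [← hb, L.comm_act hk, hb, L.act_comm]

include hk hb in
theorem LieStep.vert_symm (x : P.X) : k.symm x = L.act.hom (b x)⁻¹ x := by
  rw [Homeomorph.symm_apply_eq, hb, L.vert_inv hk hb, L.act.hom_hom_inv]

include hk hb in
theorem LieStep.vert_comm (x : P.X) :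
    (k * P.T * k⁻¹ * P.T⁻¹ : P.X ≃ₜ P.X) x = L.act.hom (b x * (b (P.T.symm x))⁻¹) x := by
  have h1 : (k * P.T * k⁻¹ * P.T⁻¹ : P.X ≃ₜ P.X) x = k (P.T (k.symm (P.T.symm x))) := rfl
  rw [h1, L.vert_symm hk hb, ← L.act.comm, Homeomorph.apply_symm_apply, hb, L.vert_inv hk hb,
    L.act.hom_mul]

/-- iterated differences of the function `b` -/
def gdiff {X C : Type*} [Group C] (T : X → X) (b : X → C) : X → C := fun x => b x * (b (T x))⁻¹

theorem faceGrp_mono {X : Type*} [TopologicalSpace X] (T : X ≃ₜ X) {j k : ℕ} (h : j ≤ k) :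
    faceGrp T k ≤ faceGrp T j :=
  fun _ hg => ⟨fun ι _ _ J hJ => hg.1 ι J (hJ.trans h), fun ι _ _ J hJ => hg.2 ι J (hJ.trans h)⟩

include hk hb in
theorem LieStep.gdiff_eq_one (x : P.X) : (gdiff P.T.symm)^[l] b x = 1 := by
  have key : ∀ n : ℕ, ∃ g : P.X ≃ₜ P.X, g ∈ faceGrp P.T (n + 1) ∧
      ∀ x, g x = L.act.hom ((gdiff P.T.symm)^[n] b x) x := by
    intro n
    induction n with
    | zero =>
      refine ⟨k, ?_, hb⟩
      rw [zero_add, faceGrp_one]
      exact hk
    | succ n ih =>
      obtain ⟨g, hg, hgb⟩ := ih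
      have hT : P.T ∈ faceGrp P.T 1 := by
        rw [faceGrp_one]
        exact isTransl_self P.T
      have hg1 : IsTransl P.T g := by
        have := faceGrp_mono P.T (Nat.le_add_left 1 n) hg
        rw [faceGrp_one] at this
        exact this
      refine ⟨g * P.T * g⁻¹ * P.T⁻¹, faceGrp_comm hg hT, fun x => ?_⟩
      rw [L.vert_comm hg1 hgb, Function.iterate_succ_apply']
      rfl
  obtain ⟨g, hg, hgb⟩ := key l
  rw [faceGrp_eq_bot L.ord.uniq le_rfl, Subgroup.mem_bot] at hg
  apply L.act.free _ x
  rw [← hgb, hg]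
  rfl

end step

/-! ### Arguments of elements of the circle -/

theorem Circle.continuous_coe' : Continuous fun z : Circle => (z : ℂ) := by fun_prop

theorem Circle.exp_bdiff_iterate {X : Type*} (T : X → X) {b : X → Circle} {β : X → ℝ}
    (h : ∀ x, Circle.exp (β x) = b x) (n : ℕ) (x : X) :
    Circle.exp ((bdiff T)^[n] β x) = (gdiff T)^[n] b x := by
  induction n generalizing x with
  | zero => exact h x
  | succ n ih =>
    rw [Function.iterate_succ_apply', Function.iterate_succ_apply']
    show Circle.exp ((bdiff T)^[n] β x - (bdiff T)^[n] β (T x)) =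
      (gdiff T)^[n] b x * ((gdiff T)^[n] b (T x))⁻¹
    rw [Circle.exp_sub, ih, ih, div_eq_mul_inv]

theorem Circle.eq_zero_of_exp_eq_one {t : ℝ} (h : Circle.exp t = 1) (ht : |t| < 2 * Real.pi) :
    t = 0 := by
  rw [Circle.exp_eq_one] at h
  obtain ⟨n, hn⟩ := h
  have hpi := Real.pi_pos
  rw [hn, abs_mul, abs_of_pos (by positivity : (0 : ℝ) < 2 * Real.pi)] at ht
  have h1 : |(n : ℝ)| < 1 := by
    by_contra h2
    push Not at h2
    nlinarith
  have h2 : n = 0 := by
    have h3 : |n| < 1 := by exact_mod_cast h1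
    rwa [Int.abs_lt_one_iff] at h3
  rw [hn, h2]
  simp

/-- **E5**: vertical translations close to the identity are elements of `B` -/
theorem LieStep.exists_vertical {P P' : DSys} {l : ℕ} (L : LieStep P P' l) :
    ∃ W ∈ 𝓝ˢ (Set.diagonal P.X), ∀ k : P.X ≃ₜ P.X, IsTransl P.T k → Near W k →
      (∀ x, L.fac.π (k x) = L.fac.π x) → ∃ b : L.B, ∀ x, k x = L.act.hom b x := by
  have : CompactSpace L.B := isCompact_iff_compactSpace.mp L.closed.isCompact
  have hpi := Real.pi_pos
  set ε : ℝ := Real.pi / 2 ^ l with hε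
  have hεpos : 0 < ε := by positivity
  set U : Set L.B := {b | |Complex.arg ((b : Circle) : ℂ)| < ε} with hU
  have hU1 : U ∈ 𝓝 (1 : L.B) := by
    have h1 : ContinuousAt (fun b : L.B => Complex.arg ((b : Circle) : ℂ)) 1 := by
      have h2 : ContinuousAt Complex.arg (((1 : L.B) : Circle) : ℂ) := by
        apply Complex.continuousAt_arg
        simp
      have h5 : Continuous fun b : L.B => ((b : Circle) : ℂ) :=
        Circle.continuous_coe'.comp continuous_subtype_val
      exact ContinuousAt.comp (f := fun b : L.B => ((b : Circle) : ℂ)) h2 h5.continuousAt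
    have h3 := h1.abs
    have h4 : |Complex.arg (((1 : L.B) : Circle) : ℂ)| < ε := by simpa using hεpos
    exact h3.eventually_lt continuousAt_const h4
  obtain ⟨W, hW, hWU⟩ := L.act.exists_near hU1
  refine ⟨W, hW, fun k hk hkW hkv => ?_⟩
  have hex : ∀ x, ∃ b : L.B, k x = L.act.hom b x := by
    intro x
    obtain ⟨b, hb⟩ := (L.fib x (k x)).1 (hkv x).symm
    exact ⟨b, hb.symm⟩
  choose b hb using hex
  have hbU : ∀ x, b x ∈ U := fun x => hWU (b x) x (by rw [← hb]; exact hkW x)
  set β : P.X → ℝ := fun x => Complex.arg ((b x : Circle) : ℂ) with hβ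
  have hexp : ∀ x, Circle.exp (β x) = (b x : Circle) := fun x => Circle.exp_arg _
  have hβε : ∀ x, |β x| ≤ ε := fun x => (hbU x).le
  have hzero : ∀ x, (bdiff P.T.symm)^[l] β x = 0 := by
    intro x
    apply Circle.eq_zero_of_exp_eq_one
    · rw [Circle.exp_bdiff_iterate _ hexp]
      have h1 := L.gdiff_eq_one hk hb x
      have h2 : ∀ (n : ℕ) (x : P.X), (gdiff P.T.symm)^[n] (fun x => (b x : Circle)) x =
          (((gdiff P.T.symm)^[n] b x : L.B) : Circle) := by
        intro n
        induction n with
        | zero => intro x; rfl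
        | succ n ih =>
          intro x
          rw [Function.iterate_succ_apply', Function.iterate_succ_apply']
          simp only [gdiff, ih, Subgroup.coe_mul, Subgroup.coe_inv]
      rw [h2, h1]
      rfl
    · have h1 := abs_bdiff_iterate_le P.T.symm hβε l x
      have h2 : (2 : ℝ) ^ l * ε = Real.pi := by
        rw [hε]
        field_simp
      rw [h2] at h1
      linarith
  obtain ⟨m, hm⟩ : ∃ m, l = m + 1 := ⟨l - 1, by have := L.pos; omega⟩
  have hinv : ∀ x, β (P.T.symm x) = β x := by
    refine inv_of_bdiff_eq_zero P.T.toEquiv m β ε hβε fun x => ?_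
    have := hzero x
    rw [hm] at this
    exact this
  have hbT : ∀ x, b (P.T.symm x) = b x := by
    intro x
    apply Subtype.ext
    rw [← hexp, ← hexp, hinv]
  have hbT' : ∀ x, b (P.T x) = b x := by
    intro x
    have := hbT (P.T x)
    rw [Homeomorph.symm_apply_apply] at this
    exact this.symm
  obtain ⟨x₀⟩ := L.ord.ne
  have hbn : ∀ n : ℤ, b ((P.T ^ n) x₀) = b x₀ := by
    intro n
    induction n using Int.induction_on with
    | zero => rfl
    | succ n ih => rw [add_comm, zpow_add_apply, zpow_one, hbT', ih]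
    | pred n ih =>
      rw [sub_eq_neg_add, zpow_add_apply, zpow_neg_one]
      exact (hbT _).trans ih
  refine ⟨b x₀, fun x => ?_⟩
  have h1 : IsClosed {z | k z = L.act.hom (b x₀) z} :=
    isClosed_eq k.continuous (L.act.hom (b x₀)).continuous
  have h2 : Set.range (fun n : ℤ => (P.T ^ n) x₀) ⊆ {z | k z = L.act.hom (b x₀) z} := by
    rintro _ ⟨n, rfl⟩
    show k ((P.T ^ n) x₀) = L.act.hom (b x₀) ((P.T ^ n) x₀)
    rw [hb, hbn]
  exact closure_minimal h2 h1 (L.ord.min x₀ x)

end MP_e326dc_an
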