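import Pool.Agent.Lib.MP_e326dc_an.E.Transl
import Pool.Agent.Lib.MP_e326dc_an.E.Vert
import Pool.Agent.Lib.MP_e326dc_an.E.Tower
import Pool.Agent.Lib.MP_e326dc_an.E6.Main

/-!
# MP_e326dc_an, E8 (final form) : every Lie step is liftable, Lie towers approximate minimal systems of
finite order
-/

open Filter Topology

namespace MP_e326dc_an

/-- every Lie step satisfies the hypotheses of E7 -/
theorem LieStep.liftable {P P' : DSys} {l : ℕ} (L : LieStep P P' l) : L.Liftable where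
  mul _ _ hg hh := hg.mul hh
  inv _ hg := hg.inv
  memB b := L.isTransl_act b
  memT := isTransl_self P.T
  comm _ hg b x := L.comm_act hg b x
  ker := by
    obtain ⟨W, hW, h⟩ := L.exists_vertical
    exact ⟨W, hW, fun k hk hkπ hkn => h k hk hkn hkπ⟩
  lift _ hW := L.lifting hW

/-- **E7**: actions of small compact groups by translations lift through Lie steps -/
theorem LieStep.exists_action {P P' : DSys} {l : ℕ} (L : LieStep P P' l)
    {W : Set (P.X × P.X)} (hW : W ∈ 𝓝ˢ (Set.diagonal P.X)) :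
    ∃ W' ∈ 𝓝ˢ (Set.diagonal P'.X), ∀ (C : Type) [CommGroup C] [TopologicalSpace C]
      [IsTopologicalGroup C] (a' : GAct C P'), (∀ c, IsTransl P'.T (a'.hom c)) →
      (∀ c, Near W' (a'.hom c)) → ∃ a : GAct C P, (∀ c, IsTransl P.T (a.hom c)) ∧
        (∀ c, Near W (a.hom c)) ∧ ∀ c x, L.fac.π (a.hom c x) = a'.hom c (L.fac.π x) :=
  L.liftable.exists_action hW

/-- **E8.** Minimal systems of finite order are approximated by Lie towers; polynomial phases
descend exactly. -/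
theorem exists_lieTower' {P : DSys} {s : ℕ} (hP : P.Ord s) {m n : ℕ}
    (F : Fin m → C(P.X, ℂ)) (p : Fin n → C(P.X, UnitAddCircle))
    (hp : ∀ i, ∃ d, ∀ x, PolyLE d (fun n : ℤ => p i ((P.T ^ n) x))) {ε : ℝ} (hε : 0 < ε) :
    ∃ (Y : DSys) (_ : LieTower Y) (π : DFactor P Y) (F' : Fin m → C(Y.X, ℂ))
      (p' : Fin n → C(Y.X, UnitAddCircle)),
      (∀ i x, ‖F i x - F' i (π.π x)‖ ≤ ε) ∧ (∀ i x, p i x = p' i (π.π x)) ∧
      (SecondCountableTopology P.X → SecondCountableTopology Y.X) :=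
  exists_lieTower_of (fun L => L.liftable)
    (fun h1 hP _ hg => hg.isTransl hP.min h1 hP.uniq) hP F p hp hε

/-- **E8.** -/
theorem exists_lieTower {P : DSys} {s : ℕ} (hP : P.Ord s) {m n : ℕ}
    (F : Fin m → C(P.X, ℂ)) (p : Fin n → C(P.X, UnitAddCircle))
    (hp : ∀ i, ∃ d, ∀ x, PolyLE d (fun n : ℤ => p i ((P.T ^ n) x))) {ε : ℝ} (hε : 0 < ε) :
    ∃ (Y : DSys) (_ : LieTower Y) (π : DFactor P Y) (F' : Fin m → C(Y.X, ℂ))
      (p' : Fin n → C(Y.X, UnitAddCircle)),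
      (∀ i x, ‖F i x - F' i (π.π x)‖ ≤ ε) ∧ ∀ i x, p i x = p' i (π.π x) := by
  obtain ⟨Y, hY, π, F', p', h1, h2, _⟩ := exists_lieTower' hP F p hp hε
  exact ⟨Y, hY, π, F', p', h1, h2⟩

end MP_e326dc_an
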