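import Pool.Agent.Lib.MP_e326dc_an.E.Near
import Pool.Agent.Lib.MP_e326dc_an.E.Split

/-!
# MP_e326dc_an, E7 : lifting small compact groups through a Lie step
-/

open Filter Topology Uniformity

namespace MP_e326dc_an

section prelim

variable {X : Type*} [TopologicalSpace X] [CompactSpace X] [T2Space X]

lemma exists_nhdsSet_of_nhds {y : X} {U : Set X} (hU : U ∈ 𝓝 y) :
    ∃ W ∈ 𝓝ˢ (Set.diagonal X), ∀ z, (y, z) ∈ W → z ∈ U := by
  let _ : UniformSpace X := uniformSpaceOfCompactR1 (γ := X)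
  rw [nhdsSet_diagonal_eq_uniformity]
  obtain ⟨V, hV, h⟩ := UniformSpace.mem_nhds_iff.1 hU
  exact ⟨V, hV, fun z hz => h hz⟩

omit [CompactSpace X] [T2Space X] in
lemma nhds_of_nhdsSet {W : Set (X × X)} (hW : W ∈ 𝓝ˢ (Set.diagonal X)) (y : X) :
    {z | (y, z) ∈ W} ∈ 𝓝 y := by
  have h1 : W ∈ 𝓝 ((y, y) : X × X) := mem_nhdsSet_iff_forall.1 hW _ rfl
  have h2 : Continuous fun z : X => (y, z) := continuous_const.prodMk continuous_id
  exact h2.continuousAt h1

/-- a homomorphism to homeomorphisms that is uniformly continuous at `1` gives a jointly continuous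
action -/
lemma continuous_of_near {C : Type*} [Group C] [TopologicalSpace C] [IsTopologicalGroup C]
    (τ : C →* (X ≃ₜ X)) (h : ∀ W ∈ 𝓝ˢ (Set.diagonal X), ∀ᶠ c in 𝓝 (1 : C), Near W (τ c)) :
    Continuous fun q : C × X => τ q.1 q.2 := by
  rw [continuous_iff_continuousAt]
  rintro ⟨c₀, x₀⟩
  intro U hU
  obtain ⟨W, hW, h1⟩ := exists_nhdsSet_of_nhds hU
  obtain ⟨V, hV, _, _, h2⟩ := exists_comp_nhdsSet hW
  have h3 : ∀ᶠ q : C × X in 𝓝 (c₀, x₀), Near V (τ (q.1 * c₀⁻¹)) := by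
    have h4 : Continuous fun q : C × X => q.1 * c₀⁻¹ := continuous_fst.mul continuous_const
    have h5 := h4.continuousAt (x := (c₀, x₀))
    rw [ContinuousAt, mul_inv_cancel] at h5
    exact h5.eventually (h V hV)
  have h6 : ∀ᶠ q : C × X in 𝓝 (c₀, x₀), (τ c₀ x₀, τ c₀ q.2) ∈ V := by
    have h4 : Continuous fun q : C × X => τ c₀ q.2 := (τ c₀).continuous.comp continuous_snd
    exact (h4.continuousAt (x := (c₀, x₀))) (nhds_of_nhdsSet hV (τ c₀ x₀))
  change ∀ᶠ q : C × X in 𝓝 (c₀, x₀), τ q.1 q.2 ∈ U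
  filter_upwards [h3, h6] with q h7 h8
  apply h1
  have h9 : τ q.1 q.2 = τ (q.1 * c₀⁻¹) (τ c₀ q.2) := by
    have : τ q.1 = τ (q.1 * c₀⁻¹) * τ c₀ := by rw [← map_mul, inv_mul_cancel_right]
    rw [this]; rfl
  have h10 := h7 (τ c₀ q.2)
  rw [← h9] at h10
  exact h2 _ _ _ h8 h10

end prelim

lemma exists_cn_lt {U : Set Circle} (hU : U ∈ 𝓝 (1 : Circle)) :
    ∃ r > 0, ∀ z : Circle, cn z < r → z ∈ U := by
  obtain ⟨r, hr, h⟩ := Metric.mem_nhds_iff.1 hU
  refine ⟨r, hr, fun z hz => h ?_⟩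
  have h1 : dist z 1 = ‖(z : ℂ) - 1‖ := by rw [← dist_eq_norm]; rfl
  rw [Metric.mem_ball, h1]
  exact hz

namespace LieStep

variable {P P' : DSys} {l : ℕ} (L : LieStep P P' l)

lemma compactSpace_B : CompactSpace L.B := isCompact_iff_compactSpace.1 L.closed.isCompact

lemma hom_injective : Function.Injective L.act.hom := by
  intro b b' h
  obtain ⟨x⟩ := L.ord.ne
  have h1 : L.act.hom (b'⁻¹ * b) x = x := by
    rw [L.act.hom_mul, h, L.act.hom_inv_hom]
  have h2 := L.act.free _ _ h1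
  rw [inv_mul_eq_one] at h2
  exact h2.symm

/-- small elements of `B` act by small homeomorphisms -/
lemma exists_near_of_cn {W : Set (P.X × P.X)} (hW : W ∈ 𝓝ˢ (Set.diagonal P.X)) :
    ∃ r > 0, ∀ b : L.B, cn b < r → Near W (L.act.hom b) := by
  have h1 := L.act.eventually_near hW
  obtain ⟨U, hU, h2⟩ := (mem_nhds_subtype _ _ _).1 h1
  obtain ⟨r, hr, h3⟩ := exists_cn_lt hU
  exact ⟨r, hr, fun b hb => h2 (h3 _ hb)⟩

/-- elements of `B` moving some point by little are small -/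
lemma exists_cn_of_near {ρ : ℝ} (hρ : 0 < ρ) :
    ∃ W ∈ 𝓝ˢ (Set.diagonal P.X), ∀ (b : L.B) x, (x, L.act.hom b x) ∈ W → cn b < ρ := by
  have := L.compactSpace_B
  have h0 : Continuous fun b : L.B => (b : Circle) := continuous_subtype_val
  have h1 : {b : L.B | cn (b : Circle) < ρ} ∈ 𝓝 (1 : L.B) :=
    (h0.continuousAt (x := 1)) (cn_lt_mem_nhds hρ)
  exact L.act.exists_near h1

end LieStep

/-- the facts on translations used for lifting: `G(P)` is a group containing `T` and `B`, it commutes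
with `B`, small elements over the identity are in `B`, small translations of `P'` lift to small
translations -/
structure LieStep.Liftable {P P' : DSys} {l : ℕ} (L : LieStep P P' l) : Prop where
  mul : ∀ g h : P.X ≃ₜ P.X, IsTransl P.T g → IsTransl P.T h → IsTransl P.T (g * h)
  inv : ∀ g : P.X ≃ₜ P.X, IsTransl P.T g → IsTransl P.T g⁻¹
  memB : ∀ b : L.B, IsTransl P.T (L.act.hom b)
  memT : IsTransl P.T P.T
  comm : ∀ g, IsTransl P.T g → ∀ (b : L.B) x, g (L.act.hom b x) = L.act.hom b (g x)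
  ker : ∃ W ∈ 𝓝ˢ (Set.diagonal P.X), ∀ k : P.X ≃ₜ P.X, IsTransl P.T k →
    (∀ x, L.fac.π (k x) = L.fac.π x) → Near W k → ∃ b : L.B, ∀ x, k x = L.act.hom b x
  lift : ∀ W ∈ 𝓝ˢ (Set.diagonal P.X), ∃ W' ∈ 𝓝ˢ (Set.diagonal P'.X), ∀ g : P'.X ≃ₜ P'.X,
    IsTransl P'.T g → Near W' g → ∃ gh : P.X ≃ₜ P.X, IsTransl P.T gh ∧
      (∀ x, L.fac.π (gh x) = g (L.fac.π x)) ∧ Near W gh

/-- **E7.** -/
theorem LieStep.Liftable.exists_action {P P' : DSys} {l : ℕ} {L : LieStep P P' l}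
    (hL : L.Liftable) {W : Set (P.X × P.X)} (hW : W ∈ 𝓝ˢ (Set.diagonal P.X)) :
    ∃ W' ∈ 𝓝ˢ (Set.diagonal P'.X), ∀ (C : Type) [CommGroup C] [TopologicalSpace C]
      [IsTopologicalGroup C] (a' : GAct C P'), (∀ c, IsTransl P'.T (a'.hom c)) →
      (∀ c, Near W' (a'.hom c)) → ∃ a : GAct C P, (∀ c, IsTransl P.T (a.hom c)) ∧
        (∀ c, Near W (a.hom c)) ∧ ∀ c x, L.fac.π (a.hom c x) = a'.hom c (L.fac.π x) := by
  classical
  set i := L.act.hom with hi_def
  have hi : Function.Injective i := L.hom_injective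
  have hπi : ∀ (b : L.B) x, L.fac.π (i b x) = L.fac.π x := fun b x =>
    ((L.fib _ _).2 ⟨b, rfl⟩).symm
  have hcomm : ∀ g, IsTransl P.T g → ∀ b : L.B, i b * g = g * i b := by
    intro g hg b
    ext x
    exact (hL.comm g hg b x).symm
  -- constants
  obtain ⟨Wa, hWa, hWaW, _, hWa2⟩ := exists_near_mul hW
  obtain ⟨r, hr, hrW⟩ := L.exists_near_of_cn hWa
  obtain ⟨ρ, hρ, hρ1, hρr, hρB⟩ : ∃ ρ > 0, ρ ≤ 1 / 100 ∧ 2 * ρ < r ∧
      (L.B = ⊤ ∨ ∀ b ∈ L.B, cn b ≤ ρ → b = 1) := by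
    rcases circle_closed_subgroup L.closed with h | ⟨ρ₀, hρ₀, h⟩
    · refine ⟨min (1 / 100) (r / 3), by positivity, min_le_left _ _, ?_, Or.inl h⟩
      have := min_le_right (1 / 100) (r / 3)
      linarith
    · refine ⟨min (min (1 / 100) (r / 3)) ρ₀, by positivity,
        (min_le_left _ _).trans (min_le_left _ _), ?_, Or.inr fun b hb hbs =>
          h b hb (hbs.trans (min_le_right _ _))⟩
      have := (min_le_left (min (1 / 100) (r / 3)) ρ₀).trans (min_le_right _ _)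
      linarith
  -- the kernel
  obtain ⟨W2, hW2, hker⟩ : ∃ W2 ∈ 𝓝ˢ (Set.diagonal P.X), ∀ k : P.X ≃ₜ P.X, IsTransl P.T k →
      (∀ x, L.fac.π (k x) = L.fac.π x) → Near W2 k → ∃ b : L.B, cn b < ρ ∧ k = i b := by
    obtain ⟨W0, hW0, h0⟩ := hL.ker
    obtain ⟨W1, hW1, h1⟩ := L.exists_cn_of_near hρ
    refine ⟨W0 ∩ W1, Filter.inter_mem hW0 hW1, fun k hk hkπ hkn => ?_⟩
    obtain ⟨n0, n1⟩ := near_inter.1 hkn
    obtain ⟨b, hb⟩ := h0 k hk hkπ n0
    obtain ⟨x⟩ := L.ord.ne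
    refine ⟨b, h1 b x ?_, Homeomorph.ext hb⟩
    rw [← hb x]
    exact n1 x
  obtain ⟨V0, hV0, hV0W, hV0inv, hV02, hV03⟩ := exists_near_mul3 (Filter.inter_mem hW2 hWa)
  obtain ⟨VT, hVT, hVTc⟩ := exists_near_comm P.T hW2
  obtain ⟨W', hW', hlift⟩ := hL.lift (V0 ∩ VT) (Filter.inter_mem hV0 hVT)
  refine ⟨W', hW', ?_⟩
  intro C _ _ _ a' ha' hn'
  choose σ hσt hσπ hσn using fun c => hlift (a'.hom c) (ha' c) (hn' c)
  have hσ0 : ∀ c, Near V0 (σ c) := fun c => (near_inter.1 (hσn c)).1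
  have hσT : ∀ c, Near VT (σ c) := fun c => (near_inter.1 (hσn c)).2
  -- `π (g⁻¹ x)` for lifts
  have hinvπ : ∀ (g : P.X ≃ₜ P.X) (c : C), (∀ x, L.fac.π (g x) = a'.hom c (L.fac.π x)) →
      ∀ x, L.fac.π (g⁻¹ x) = a'.hom c⁻¹ (L.fac.π x) := by
    intro g c h x
    have h1 := h (g⁻¹ x)
    have h2 : g (g⁻¹ x) = x := g.apply_symm_apply x
    rw [h2] at h1
    rw [h1, a'.hom_inv_hom]
  have hβ' : ∀ c d, ∃ b : L.B, cn b < ρ ∧ σ c * σ d * (σ (c * d))⁻¹ = i b := by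
    intro c d
    refine hker _ (hL.mul _ _ (hL.mul _ _ (hσt c) (hσt d)) (hL.inv _ (hσt _))) ?_ ?_
    · intro x
      change L.fac.π (σ c (σ d ((σ (c * d))⁻¹ x))) = L.fac.π x
      rw [hσπ, hσπ, hinvπ _ _ (hσπ _), ← a'.hom_mul, ← a'.hom_mul, mul_inv_cancel, a'.hom_one]
    · exact (hV03 _ _ _ (hσ0 c) (hσ0 d) (hV0inv _ (hσ0 _))).mono Set.inter_subset_left
  choose β hβs hβ using hβ'
  obtain ⟨τ, ρc, hτ, hρc⟩ := exists_split L.B hρ1 hρB i hi σ (fun b c => hcomm _ (hσt c) b) β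
    (fun c d => by rw [← hβ, inv_mul_cancel_right]) (fun c d => (hβs c d).le)
  have hτt : ∀ c, IsTransl P.T (τ c) := fun c => by
    rw [hτ]; exact hL.mul _ _ (hL.memB _) (hσt c)
  have hτπ : ∀ c x, L.fac.π (τ c x) = a'.hom c (L.fac.π x) := by
    intro c x
    rw [hτ]
    change L.fac.π (i (ρc c) (σ c x)) = _
    rw [hπi, hσπ]
  -- comparison of `τ` with small lifts
  have hcmp : ∀ c (g : P.X ≃ₜ P.X), IsTransl P.T g → (∀ x, L.fac.π (g x) = a'.hom c (L.fac.π x)) →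
      Near V0 g → ∃ b : L.B, cn b ≤ 1 / 2 ∧ τ c = i b * g := by
    intro c g hg hgπ hgn
    obtain ⟨b, hb, hb'⟩ := hker (σ c * g⁻¹) (hL.mul _ _ (hσt c) (hL.inv _ hg)) (by
      intro x
      change L.fac.π (σ c (g⁻¹ x)) = L.fac.π x
      rw [hσπ, hinvπ _ _ hgπ, ← a'.hom_mul, mul_inv_cancel, a'.hom_one])
      ((hV02 _ _ (hσ0 c) (hV0inv _ hgn)).mono Set.inter_subset_left)
    refine ⟨ρc c * b, ?_, ?_⟩
    · have := cn_mul_le (ρc c) b
      have h2 := hρc c
      have h3 : ((ρc c * b : L.B) : Circle) = (ρc c : Circle) * b := rfl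
      rw [h3]
      linarith
    · rw [hτ, map_mul, mul_assoc, ← hb', inv_mul_cancel_right]
  -- uniform continuity at `1`
  have hcont : ∀ Wt ∈ 𝓝ˢ (Set.diagonal P.X), ∀ᶠ c in 𝓝 (1 : C), Near Wt (τ c) := by
    intro Wt hWt
    obtain ⟨Wb, hWb, _, _, hWb2⟩ := exists_near_mul hWt
    obtain ⟨rt, hrt, hrt2⟩ := L.exists_near_of_cn hWb
    obtain ⟨n, hn⟩ := pow_unbounded_of_one_lt (1 / rt) (by norm_num : (1 : ℝ) < 3 / 2)
    obtain ⟨Vn, hVn, _, hVn2⟩ := exists_near_pow hV0 (2 ^ n)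
    obtain ⟨W'', hW'', hlift'⟩ := hL.lift (Vn ∩ Wb) (Filter.inter_mem hVn hWb)
    filter_upwards [a'.eventually_near hW''] with c hc
    obtain ⟨g, hgt, hgπ, hgn⟩ := hlift' (a'.hom c) (ha' c) hc
    obtain ⟨hgn1, hgn2⟩ := near_inter.1 hgn
    have hgpow : ∀ k : ℕ, IsTransl P.T (g ^ k) ∧ ∀ x, L.fac.π ((g ^ k) x) = a'.hom (c ^ k) (L.fac.π x) := by
      intro k
      induction k with
      | zero =>
        refine ⟨?_, fun x => ?_⟩
        · rw [pow_zero, ← map_one i]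
          exact hL.memB 1
        · rw [pow_zero, pow_zero, a'.hom_one]; rfl
      | succ k ih =>
        refine ⟨?_, fun x => ?_⟩
        · rw [pow_succ]
          exact hL.mul _ _ ih.1 hgt
        · rw [pow_succ, pow_succ, a'.hom_mul, ← hgπ, ← ih.2]
          rfl
    obtain ⟨b, hb, hbτ⟩ := hcmp c g hgt hgπ (by
      have := hVn2 g hgn1 1 Nat.one_le_two_pow
      rwa [pow_one] at this)
    have hbk : ∀ k ≤ n, cn ((b : Circle) ^ (2 ^ k)) ≤ 1 / 2 := by
      intro k hk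
      obtain ⟨b', hb', hb'τ⟩ := hcmp (c ^ (2 ^ k)) (g ^ (2 ^ k)) (hgpow _).1 (hgpow _).2
        (hVn2 g hgn1 (2 ^ k) (Nat.pow_le_pow_right (by norm_num) hk))
      have h1 : τ (c ^ (2 ^ k)) = i (b ^ (2 ^ k)) * g ^ (2 ^ k) := by
        rw [map_pow, hbτ, (show Commute (i b) g from hcomm g hgt b).mul_pow, map_pow]
      rw [h1] at hb'τ
      have h2 : b ^ (2 ^ k) = b' := hi (mul_right_cancel hb'τ)
      rw [← h2] at hb'
      exact hb'
    have h3 := cn_dyadic (z := (b : Circle)) (n := n) fun k hk => hbk k hk.le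
    have h4 := hbk n le_rfl
    have h5 : cn (b : Circle) < rt := by
      rw [div_lt_iff₀ hrt] at hn
      by_contra h6
      push Not at h6
      have : (3 / 2 : ℝ) ^ n * rt ≤ (3 / 2) ^ n * cn (b : Circle) := by gcongr
      linarith
    rw [hbτ]
    exact hWb2 _ _ (hrt2 b h5) hgn2
  -- commutation with `T`
  have hTcomm : ∀ c, τ c * P.T = P.T * τ c := by
    have h1 : ∀ c, ∃ b : L.B, cn b < ρ ∧ τ c * P.T = i b * (P.T * τ c) := by
      intro c
      obtain ⟨b, hb, hb'⟩ := hker (σ c * P.T * (σ c)⁻¹ * P.T⁻¹)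
        (hL.mul _ _ (hL.mul _ _ (hL.mul _ _ (hσt c) hL.memT) (hL.inv _ (hσt c)))
          (hL.inv _ hL.memT)) (by
          intro x
          change L.fac.π (σ c (P.T ((σ c)⁻¹ (P.T⁻¹ x)))) = L.fac.π x
          rw [hσπ, L.fac.equi, a'.comm, hinvπ _ _ (hσπ c), a'.hom_hom_inv, ← L.fac.equi]
          exact congrArg L.fac.π (P.T.apply_symm_apply x)) (hVTc _ (hσT c))
      refine ⟨b, hb, ?_⟩
      have h2 : σ c * P.T = i b * (P.T * σ c) := by
        rw [← hb']; group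
      have h3 := hcomm P.T hL.memT (ρc c)
      rw [hτ, mul_assoc, h2]
      calc i (ρc c) * (i b * (P.T * σ c)) = i (ρc c * b) * P.T * σ c := by rw [map_mul]; group
        _ = i (b * ρc c) * P.T * σ c := by rw [mul_comm]
        _ = i b * (i (ρc c) * P.T) * σ c := by rw [map_mul]; group
        _ = i b * (P.T * i (ρc c)) * σ c := by rw [h3]
        _ = i b * (P.T * (i (ρc c) * σ c)) := by group
    choose b hbs hb using h1
    have hbm : ∀ c d, b (c * d) = b c * b d := by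
      intro c d
      apply hi
      apply mul_right_cancel (b := P.T * τ (c * d))
      rw [← hb]
      have h3 := hcomm _ (hτt c) (b d)
      calc τ (c * d) * P.T = τ c * (τ d * P.T) := by rw [map_mul]; group
        _ = τ c * (i (b d) * (P.T * τ d)) := by rw [hb d]
        _ = (τ c * i (b d)) * P.T * τ d := by group
        _ = (i (b d) * τ c) * P.T * τ d := by rw [h3]
        _ = i (b d) * (τ c * P.T) * τ d := by group
        _ = i (b d) * (i (b c) * (P.T * τ c)) * τ d := by rw [hb c]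
        _ = i (b d * b c) * (P.T * (τ c * τ d)) := by rw [map_mul]; group
        _ = i (b c * b d) * (P.T * τ (c * d)) := by rw [mul_comm (b d), map_mul τ]
    have hb1 : b 1 = 1 := by
      have := hbm 1 1
      rw [mul_one] at this
      exact (left_eq_mul.1 this)
    let bh : C →* L.B := { toFun := b, map_one' := hb1, map_mul' := hbm }
    have hbone : ∀ c, b c = 1 := by
      intro c
      apply Subtype.ext
      apply eq_one_of_dyadic
      intro k
      have h3 : ((b c : L.B) : Circle) ^ (2 ^ k) = (b (c ^ (2 ^ k)) : L.B) := by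
        have : b (c ^ (2 ^ k)) = b c ^ (2 ^ k) := map_pow bh c (2 ^ k)
        rw [this]; rfl
      rw [h3]
      have := hbs (c ^ (2 ^ k))
      linarith
    intro c
    rw [hb, hbone, map_one, one_mul]
  refine ⟨{ hom := τ
            cont := continuous_of_near τ hcont
            comm := fun c x => ?_
            free := fun c x h => ?_ }, hτt, fun c => ?_, hτπ⟩
  · exact DFunLike.congr_fun (hTcomm c) x
  · apply a'.free c (L.fac.π x)
    rw [← hτπ, h]
  · change Near W (τ c)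
    rw [hτ]
    refine hWa2 _ _ (hrW _ ?_) ((hσ0 c).mono (hV0W.trans Set.inter_subset_right))
    exact (hρc c).trans_lt hρr

end MP_e326dc_an
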