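import Pool.Agent.Lib.MP_e326dc_an.E.Lift
import Pool.Agent.Lib.MP_e326dc_an.Cube.Str3

/-!
# MP_e326dc_an, E8 : Lie steps between orbit systems
-/

open Filter Topology

namespace MP_e326dc_an

namespace LieStep

variable {P P' : DSys} {l : ℕ} (L : LieStep P P' l)

/-- `Q_k(P)` is the full preimage of `Q_k(P/B)` for `k ≤ l`. -/
lemma mem_Cub_of_fac {k : ℕ} (hk : k ≤ l) {d : Finset (Fin k) → P.X}
    (hd : (fun A => L.fac.π (d A)) ∈ Cub P'.T (Fin k)) : d ∈ Cub P.T (Fin k) := by
  classical
  obtain ⟨d', hd', h1⟩ := Cub_lift L.fac.cont L.fac.surj L.fac.equi hd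
  have h2 : ∀ A, ∃ b : L.B, L.act.hom b (d' A) = d A := fun A =>
    (L.fib _ _).1 (congrFun h1 A)
  choose b hb using h2
  have key : ∀ s : Finset (Finset (Fin k)), (fun A => if A ∈ s then d A else d' A) ∈
      Cub P.T (Fin k) := by
    intro s
    induction s using Finset.induction_on with
    | empty => simpa using hd'
    | insert A s hA ih =>
      have h3 := update_mem_of_comm L.ord.min L.ord.uniq.distalU (L.act.hom (b A)).continuous
        (fun x => L.act.comm (b A) x) (x := d ∅) ((L.str (b A)).2 (d ∅)) (by simpa using hk) A ih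
      have h4 : Function.update (fun A => if A ∈ s then d A else d' A) A
          (L.act.hom (b A) (if A ∈ s then d A else d' A)) =
          fun B => if B ∈ insert A s then d B else d' B := by
        funext B
        by_cases hB : B = A
        · subst hB
          simp [hA, hb]
        · simp [hB]
      rwa [h4] at h3
  simpa using key Finset.univ

/-- the level of an action passes from `P/B` to `P` -/
lemma level_of_fac {C : Type} [CommGroup C] [TopologicalSpace C] (a : GAct C P)
    (a' : GAct C P') (h : ∀ c x, L.fac.π (a.hom c x) = a'.hom c (L.fac.π x)) {j : ℕ} (hj : j ≤ l)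
    (ha' : a'.Level j) : a.Level j where
  mem c x := by
    apply L.mem_Cub_of_fac hj
    have h1 := ha'.mem c (L.fac.π x)
    have h2 : (fun A : Finset (Fin j) => L.fac.π (vcube x (a.hom c x) A)) =
        vcube (L.fac.π x) (a'.hom c (L.fac.π x)) := by
      funext A
      by_cases hA : A = Finset.univ <;> simp [vcube, hA, h]
    rwa [h2]
  not_mem c x hx := by
    apply ha'.not_mem c (L.fac.π x)
    have h1 := Cub_map L.fac.cont L.fac.equi hx
    have h2 : (fun A : Finset (Fin (j + 1)) => L.fac.π (vcube x (a.hom c x) A)) =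
        vcube (L.fac.π x) (a'.hom c (L.fac.π x)) := by
      funext A
      by_cases hA : A = Finset.univ <;> simp [vcube, hA, h]
    rwa [h2] at h1

end LieStep

/-- the action of a group `B` commuting with `C` on the orbit system of `C` -/
def GAct.onQuot {B C : Type} [CommGroup B] [TopologicalSpace B] [CommGroup C] [TopologicalSpace C]
    [CompactSpace C] {P : DSys} (b : GAct B P) (a : GAct C P)
    (hcomm : ∀ c g x, a.hom c (b.hom g x) = b.hom g (a.hom c x))
    (hfree : ∀ c g x, a.hom c (b.hom g x) = x → g = 1) : GAct B a.quot where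
  hom :=
    { toFun := fun g => a.desc (b.hom g) (fun c x => hcomm c g x)
      map_one' := by
        ext x
        obtain ⟨x, rfl⟩ := a.fac.surj x
        change a.proj (b.hom 1 x) = a.proj x
        rw [b.hom_one]
      map_mul' := by
        intro g g'
        ext x
        obtain ⟨x, rfl⟩ := a.fac.surj x
        change a.proj (b.hom (g * g') x) = a.proj (b.hom g (b.hom g' x))
        rw [b.hom_mul] }
  cont := by
    have h1 : IsOpenQuotientMap (Prod.map (id : B → B) a.proj) :=
      IsOpenQuotientMap.id.prodMap a.isOpenQuotientMap_proj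
    have h2 : Continuous fun q : B × P.X => a.proj (b.hom q.1 q.2) :=
      a.isOpenQuotientMap_proj.continuous.comp b.cont
    exact h1.isQuotientMap.continuous_iff.2 h2
  comm g x := by
    obtain ⟨x, rfl⟩ := a.fac.surj x
    exact congrArg a.proj (b.comm g x)
  free g x hx := by
    obtain ⟨x, rfl⟩ := a.fac.surj x
    obtain ⟨c, hc⟩ := (a.proj_eq_iff (b.hom g x) x).1 hx
    exact hfree c g x hc

/-- A Lie step `P → P/B` and compatible compact group actions commuting with `B` give a Lie step
`P/C → (P/B)/C`. -/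
noncomputable def LieStep.quot {P P' : DSys} {l : ℕ} (L : LieStep P P' l) {C : Type} [CommGroup C]
    [TopologicalSpace C] [CompactSpace C] (a : GAct C P) (a' : GAct C P')
    (h : ∀ c x, L.fac.π (a.hom c x) = a'.hom c (L.fac.π x))
    (hcomm : ∀ c (b : L.B) x, a.hom c (L.act.hom b x) = L.act.hom b (a.hom c x))
    {j : ℕ} (hj : j ≤ l) (ha : a.Level j) : LieStep a.quot a'.quot l where
  B := L.B
  closed := L.closed
  act := L.act.onQuot a hcomm (by
    intro c b x hx
    have h1 : L.fac.π (a.hom c (L.act.hom b x)) = a'.hom c (L.fac.π x) := by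
      rw [h]
      congr 1
      exact ((L.fib _ _).2 ⟨b, rfl⟩).symm
    rw [hx] at h1
    have h2 := a'.free c _ h1.symm
    rw [h2, a.hom_one] at hx
    exact L.act.free b x hx)
  fac :=
    { π := Quotient.map L.fac.π (by
        rintro x y ⟨c, rfl⟩
        exact ⟨c, (h c x).symm⟩)
      cont := Continuous.quotient_map' L.fac.cont _
      surj := by
        intro y
        obtain ⟨y, rfl⟩ := a'.fac.surj y
        obtain ⟨x, rfl⟩ := L.fac.surj y
        exact ⟨a.proj x, rfl⟩
      equi := by
        intro x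
        obtain ⟨x, rfl⟩ := a.fac.surj x
        exact congrArg a'.proj (L.fac.equi x) }
  fib := by
    intro x y
    obtain ⟨x, rfl⟩ := a.fac.surj x
    obtain ⟨y, rfl⟩ := a.fac.surj y
    change a'.proj (L.fac.π x) = a'.proj (L.fac.π y) ↔ ∃ b, a.proj (L.act.hom b x) = a.proj y
    rw [a'.proj_eq_iff]
    constructor
    · rintro ⟨c, hc⟩
      rw [← h] at hc
      obtain ⟨b, hb⟩ := (L.fib _ _).1 hc
      refine ⟨b, (a.proj_eq_iff _ _).2 ⟨c, ?_⟩⟩
      rw [hcomm, hb]
    · rintro ⟨b, hb⟩
      obtain ⟨c, hc⟩ := (a.proj_eq_iff _ _).1 hb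
      refine ⟨c, ?_⟩
      rw [← hc, h]
      congr 1
      exact (L.fib _ _).2 ⟨b, rfl⟩
  pos := L.pos
  ord := a.quot_ord_of_level L.ord hj ha
  str := by
    intro b
    refine ⟨?_, ?_⟩
    · intro x
      obtain ⟨x, rfl⟩ := a.fac.surj x
      exact congrArg a.proj (L.act.comm b x)
    · intro x
      obtain ⟨x, rfl⟩ := a.fac.surj x
      have h1 := Cub_map a.fac.cont a.fac.equi ((L.str b).2 x)
      have h2 : (fun A : Finset (Fin l) => a.fac.π (vcube x (L.act.hom b x) A)) =
          vcube (a.fac.π x) (a.fac.π (L.act.hom b x)) := by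
        funext A
        by_cases hA : A = Finset.univ <;> simp [vcube, hA]
      rw [h2] at h1
      exact h1

/-- The quotient by `K' = K ∩ ker χ` is a Lie step over the quotient by `K`. -/
theorem exists_lieStep_restr {A : Type} [CommGroup A] [TopologicalSpace A] [IsTopologicalGroup A]
    {Z : DSys} (a : GAct A Z) {j : ℕ} (hj : 1 ≤ j) (hZ : Z.Ord j)
    (hs : ∀ c, IsStr Z.T j (a.hom c)) (K K' : Subgroup A) [CompactSpace K] [CompactSpace K']
    (χ : A →* Circle) (hχ : Continuous χ) (h : ∀ c, c ∈ K' ↔ c ∈ K ∧ χ c = 1) :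
    Nonempty (LieStep (a.restr K').quot (a.restr K).quot j) := by
  classical
  have hacomm : ∀ (c d : A) x, a.hom c (a.hom d x) = a.hom d (a.hom c x) := by
    intro c d x
    rw [← a.hom_mul, mul_comm, a.hom_mul]
  set a1 := a.restr K' with ha1
  set a0 := a.restr K with ha0
  -- the action of `K` on `Z / K'`
  have hD : ∀ (k : A) (c : K') x, a1.hom c (a.hom k x) = a.hom k (a1.hom c x) := fun k c x =>
    hacomm c k x
  have key : ∀ k k' : A, k ∈ K → k' ∈ K → χ k = χ k' → ∀ z, a1.proj (a.hom k z) =
      a1.proj (a.hom k' z) := by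
    intro k k' hk hk' hkk z
    rw [a1.proj_eq_iff]
    refine ⟨⟨k' * k⁻¹, (h _).2 ⟨K.mul_mem hk' (K.inv_mem hk), ?_⟩⟩, ?_⟩
    · rw [map_mul, map_inv, hkk, mul_inv_cancel]
    · change a.hom (k' * k⁻¹) (a.hom k z) = _
      rw [← a.hom_mul, inv_mul_cancel_right]
  have hpick : ∀ b : K.map χ, ∃ k ∈ K, χ k = b := fun b => Subgroup.mem_map.1 b.2
  choose kk hkK hkχ using hpick
  have hmem : ∀ k : K, χ k ∈ K.map χ := fun k => Subgroup.mem_map_of_mem χ k.2
  let H : K.map χ →* ((a1.quot).X ≃ₜ (a1.quot).X) :=
    { toFun := fun b => a1.desc (a.hom (kk b)) (hD (kk b))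
      map_one' := by
        ext x
        obtain ⟨x, rfl⟩ := a1.fac.surj x
        change a1.proj (a.hom (kk 1) x) = a1.proj x
        rw [key (kk 1) 1 (hkK 1) K.one_mem (by rw [hkχ, map_one]; rfl), a.hom_one]
      map_mul' := by
        intro b b'
        ext x
        obtain ⟨x, rfl⟩ := a1.fac.surj x
        change a1.proj (a.hom (kk (b * b')) x) = a1.proj (a.hom (kk b) (a.hom (kk b') x))
        rw [key (kk (b * b')) (kk b * kk b') (hkK _) (K.mul_mem (hkK _) (hkK _))
          (by rw [map_mul, hkχ, hkχ, hkχ]; rfl), a.hom_mul] }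
  have hH : ∀ (b : K.map χ) (k : A), k ∈ K → χ k = b → ∀ x, H b (a1.proj x) =
      a1.proj (a.hom k x) := by
    intro b k hk hkb x
    change a1.proj (a.hom (kk b) x) = _
    exact key _ _ (hkK b) hk (by rw [hkχ, hkb]) x
  have hB : IsClosed ((K.map χ : Subgroup Circle) : Set Circle) := by
    rw [Subgroup.coe_map]
    have hK : IsCompact (K : Set A) := isCompact_iff_compactSpace.2 inferInstance
    exact (hK.image hχ).isClosed
  refine ⟨{ B := K.map χ
            closed := hB
            act :=
              { hom := H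
                cont := ?_
                comm := ?_
                free := ?_ }
            fac :=
              { π := Quotient.map id (by
                  rintro x y ⟨c, rfl⟩
                  exact ⟨⟨c.1, ((h _).1 c.2).1⟩, rfl⟩)
                cont := Continuous.quotient_map' continuous_id _
                surj := ?_
                equi := ?_ }
            fib := ?_
            pos := hj
            ord := a1.quot_ord_of_level hZ le_rfl (a1.level_of_str hZ fun c => hs c)
            str := ?_ }⟩
  · -- continuity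
    let q : K × Z.X → K.map χ × a1.quot.X := fun r => (⟨χ r.1, hmem r.1⟩, a1.proj r.2)
    have hq : Continuous q := by
      refine Continuous.prodMk ?_ ?_
      · exact Continuous.subtype_mk ((hχ.comp continuous_subtype_val).comp continuous_fst) _
      · exact a1.isOpenQuotientMap_proj.continuous.comp continuous_snd
    have hqs : Function.Surjective q := by
      rintro ⟨b, y⟩
      obtain ⟨x, rfl⟩ := a1.fac.surj y
      refine ⟨(⟨kk b, hkK b⟩, x), ?_⟩
      refine Prod.ext ?_ rfl
      exact Subtype.ext (hkχ b)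
    have hqm := hq.isClosedMap.isQuotientMap hq hqs
    refine hqm.continuous_iff.2 ?_
    have h1 : (fun r : K.map χ × a1.quot.X => H r.1 r.2) ∘ q =
        fun r : K × Z.X => a1.proj (a.hom r.1 r.2) := by
      funext r
      exact hH _ r.1 r.1.2 rfl r.2
    rw [h1]
    exact a1.isOpenQuotientMap_proj.continuous.comp
      (a.cont.comp ((continuous_subtype_val.comp continuous_fst).prodMk continuous_snd))
  · intro b x
    obtain ⟨x, rfl⟩ := a1.fac.surj x
    exact congrArg a1.proj (a.comm (kk b) x)
  · intro b x hx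
    obtain ⟨x, rfl⟩ := a1.fac.surj x
    obtain ⟨c, hc⟩ := (a1.proj_eq_iff (a.hom (kk b) x) x).1 hx
    change a.hom c (a.hom (kk b) x) = x at hc
    rw [← a.hom_mul] at hc
    have h1 := a.free _ _ hc
    have h2 : kk b = (c : A)⁻¹ := (eq_inv_of_mul_eq_one_right h1)
    have h3 : kk b ∈ K' := by rw [h2]; exact K'.inv_mem c.2
    apply Subtype.ext
    rw [← hkχ b, ((h _).1 h3).2]
    rfl
  · intro y
    obtain ⟨y, rfl⟩ := a0.fac.surj y
    exact ⟨a1.proj y, rfl⟩
  · intro x
    obtain ⟨x, rfl⟩ := a1.fac.surj x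
    rfl
  · intro x y
    obtain ⟨x, rfl⟩ := a1.fac.surj x
    obtain ⟨y, rfl⟩ := a1.fac.surj y
    change a0.proj x = a0.proj y ↔ ∃ b, H b (a1.proj x) = a1.proj y
    rw [a0.proj_eq_iff]
    constructor
    · rintro ⟨c, hc⟩
      refine ⟨⟨χ c, hmem c⟩, ?_⟩
      rw [hH _ c c.2 rfl]
      exact congrArg a1.proj hc
    · rintro ⟨b, hb⟩
      rw [hH b (kk b) (hkK b) (hkχ b)] at hb
      obtain ⟨c, hc⟩ := (a1.proj_eq_iff _ _).1 hb
      refine ⟨⟨c * kk b, K.mul_mem ((h _).1 c.2).1 (hkK b)⟩, ?_⟩
      change a.hom (c * kk b) x = y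
      rw [a.hom_mul]
      exact hc
  · intro b
    refine ⟨?_, ?_⟩
    · intro x
      obtain ⟨x, rfl⟩ := a1.fac.surj x
      exact congrArg a1.proj (a.comm (kk b) x)
    · intro x
      obtain ⟨x, rfl⟩ := a1.fac.surj x
      have h1 := Cub_map a1.fac.cont a1.fac.equi ((hs (kk b)).2 x)
      have h2 : (fun A : Finset (Fin j) => a1.fac.π (vcube x (a.hom (kk b) x) A)) =
          vcube (a1.fac.π x) (a1.fac.π (a.hom (kk b) x)) := by
        funext A
        by_cases hA : A = Finset.univ <;> simp [vcube, hA]
      rw [h2] at h1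
      exact h1

end MP_e326dc_an
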