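import Pool.Agent.Lib.MP_e326dc_an.E.Act
import Pool.Agent.Lib.MP_e326dc_an.Cube.Str1

set_option autoImplicit false

/-!
# MP_e326dc_an : the group of translations (E4)
-/

open Filter Topology

namespace MP_e326dc_an

/-! ### Facet transformations, the group `G(X)` -/

section transl
variable {X : Type*} [TopologicalSpace X] {T : X ≃ₜ X}
variable {ι : Type} [Fintype ι] [DecidableEq ι]

/-- facet transformations preserve cubes (any `T`) -/
theorem HalfTransl.facet {g : X → X} (hg : HalfTransl T g) (i : ι) {c : Finset ι → X}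
    (hc : c ∈ Cub T ι) : faceAct g {i} c ∈ Cub T ι := by
  set ψ : Finset ι → Finset (Option ι) := fun S =>
    if i ∈ S then Finset.insertNone S else S.map Function.Embedding.some with hψ
  have hn : ∀ S, none ∈ ψ S ↔ i ∈ S := by
    intro S
    by_cases h : i ∈ S <;> simp [hψ, h]
  have he : ∀ S, (ψ S).eraseNone = S := by
    intro S
    by_cases h : i ∈ S
    · simp [hψ, h]
    · simp [hψ, h]
  have haff : AffMap ψ := by
    refine affMap_of_coord fun o => ?_
    cases o with
    | none => exact Or.inr (Or.inr (Or.inl ⟨i, hn⟩))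
    | some j =>
      refine Or.inr (Or.inr (Or.inl ⟨j, fun S => ?_⟩))
      rw [← Finset.mem_eraseNone, he]
  have h1 := Cub_comp haff (hg ι c hc)
  have h2 : (fun S => pairCube c (fun S => g (c S)) (ψ S)) = faceAct g {i} c := by
    funext S
    by_cases h : i ∈ S
    · rw [pairCube_of_mem ((hn S).2 h), he]
      simp [faceAct, h]
    · rw [pairCube_of_notMem (fun h' => h ((hn S).1 h')), he]
      simp [faceAct, h]
  rwa [h2] at h1

/-- diagonal transformations preserve cubes -/
theorem HalfTransl.diag {g : X → X} (hg : HalfTransl T g) {c : Finset ι → X}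
    (hc : c ∈ Cub T ι) : (fun S => g (c S)) ∈ Cub T ι :=
  Cub_upper (hg ι c hc)

theorem halfTransl_of_facet {g : X → X}
    (h : ∀ (ι : Type) [Fintype ι] [DecidableEq ι], ∀ c ∈ Cub T (Option ι),
      faceAct g {none} c ∈ Cub T (Option ι)) : HalfTransl T g := by
  intro ι _ _ c hc
  have h1 := h ι _ (pairCube_diag hc)
  have h2 : faceAct g {none} (pairCube c c) = pairCube c (fun S => g (c S)) := by
    funext S
    by_cases hS : none ∈ S
    · simp [faceAct, pairCube, hS]
    · simp [faceAct, pairCube, hS]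
  rwa [h2] at h1

theorem halfTransl_iff_facet {g : X → X} : HalfTransl T g ↔
    ∀ (ι : Type) [Fintype ι] [DecidableEq ι] (i : ι), ∀ c ∈ Cub T ι, faceAct g {i} c ∈ Cub T ι :=
  ⟨fun h _ _ _ i _ hc => h.facet i hc, fun h => halfTransl_of_facet fun ι _ _ c hc =>
    h (Option ι) none c hc⟩

theorem HalfTransl.comp {g h : X → X} (hg : HalfTransl T g) (hh : HalfTransl T h) :
    HalfTransl T (g ∘ h) := by
  refine halfTransl_of_facet fun ι _ _ c hc => ?_
  have h1 := hg.facet none (hh.facet none hc)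
  have h2 : faceAct g {none} (faceAct h {none} c) = faceAct (g ∘ h) {none} c := by
    funext S
    by_cases hS : none ∈ S
    · simp [faceAct, hS]
    · simp [faceAct, hS]
  rwa [h2] at h1

theorem halfTransl_id : HalfTransl T (id : X → X) := fun _ _ _ _ hc => pairCube_diag hc

/-- the group of translations `G(X)` (any `T`) -/
def transl (T : X ≃ₜ X) : Subgroup (X ≃ₜ X) where
  carrier := {g | IsTransl T g}
  mul_mem' := by
    rintro g h ⟨hg, hg'⟩ ⟨hh, hh'⟩
    exact ⟨hg.comp hh, hh'.comp hg'⟩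
  one_mem' := ⟨halfTransl_id, halfTransl_id⟩
  inv_mem' := by
    rintro g ⟨hg, hg'⟩
    exact ⟨hg', hg⟩

theorem mem_transl {g : X ≃ₜ X} : g ∈ transl T ↔ IsTransl T g := Iff.rfl

theorem IsTransl.mul {g h : X ≃ₜ X} (hg : IsTransl T g) (hh : IsTransl T h) :
    IsTransl T (g * h) := (transl T).mul_mem hg hh

theorem IsTransl.inv {g : X ≃ₜ X} (hg : IsTransl T g) : IsTransl T g⁻¹ := (transl T).inv_mem hg

theorem isTransl_one : IsTransl T (1 : X ≃ₜ X) := (transl T).one_mem

theorem halfTransl_zpow (T : X ≃ₜ X) (m : ℤ) : HalfTransl T (fun x => (T ^ m) x) := by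
  refine halfTransl_of_facet fun ι _ _ c hc => ?_
  rw [faceAct_eq_cact]
  exact cact_mem _ hc

theorem isTransl_self (T : X ≃ₜ X) : IsTransl T T := by
  constructor
  · have h := halfTransl_zpow T 1
    simpa using h
  · have h := halfTransl_zpow T (-1)
    rw [zpow_neg_one] at h
    exact h

/-! ### Faces of codimension `k` -/

/-- `g` acts on the faces of codimension at most `k` of cubes -/
def FacePres (T : X ≃ₜ X) (k : ℕ) (g : X → X) : Prop :=
  ∀ (ι : Type) [Fintype ι] [DecidableEq ι] (J : Finset ι), J.card ≤ k →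
    ∀ c ∈ Cub T ι, faceAct g J c ∈ Cub T ι

theorem HalfTransl.facePres {g : X → X} (hg : HalfTransl T g) : FacePres T 1 g := by
  intro ι _ _ J hJ c hc
  rcases Nat.le_one_iff_eq_zero_or_eq_one.1 hJ with h | h
  · rw [Finset.card_eq_zero] at h
    subst h
    have h2 : faceAct g (∅ : Finset ι) c = fun S => g (c S) := by
      funext S
      simp [faceAct]
    rw [h2]
    exact hg.diag hc
  · obtain ⟨i, rfl⟩ := Finset.card_eq_one.1 h
    exact hg.facet i hc

theorem FacePres.halfTransl {k : ℕ} (hk : 1 ≤ k) {g : X → X} (hg : FacePres T k g) :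
    HalfTransl T g :=
  halfTransl_of_facet fun ι _ _ c hc => hg (Option ι) {none} (by simpa using hk) c hc

/-- the translations acting on faces of codimension `k` -/
def faceGrp (T : X ≃ₜ X) (k : ℕ) : Subgroup (X ≃ₜ X) where
  carrier := {g | FacePres T k g ∧ FacePres T k g.symm}
  mul_mem' := by
    have key : ∀ g h : X → X, FacePres T k g → FacePres T k h → FacePres T k (g ∘ h) := by
      intro g h hg hh ι _ _ J hJ c hc
      have h1 := hg ι J hJ _ (hh ι J hJ c hc)
      have h2 : faceAct g J (faceAct h J c) = faceAct (g ∘ h) J c := by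
        funext S
        by_cases hS : J ⊆ S <;> simp [faceAct, hS]
      rwa [h2] at h1
    rintro g h ⟨hg, hg'⟩ ⟨hh, hh'⟩
    exact ⟨key g h hg hh, key h.symm g.symm hh' hg'⟩
  one_mem' := by
    have key : FacePres T k (id : X → X) := by
      intro ι _ _ J _ c hc
      have h2 : faceAct id J c = c := by
        funext S
        by_cases hS : J ⊆ S <;> simp [faceAct, hS]
      rwa [h2]
    exact ⟨key, key⟩
  inv_mem' := by
    rintro g ⟨hg, hg'⟩
    exact ⟨hg', hg⟩

theorem faceGrp_one : faceGrp T 1 = transl T := by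
  ext g
  exact ⟨fun h => ⟨h.1.halfTransl le_rfl, h.2.halfTransl le_rfl⟩,
    fun h => ⟨h.1.facePres, h.2.facePres⟩⟩

omit [Fintype ι] in
/-- the commutator of transformations of faces -/
theorem faceAct_comm (g h : X ≃ₜ X) (J K : Finset ι) (c : Finset ι → X) :
    faceAct g J (faceAct h K (faceAct g.symm J (faceAct h.symm K c))) =
      faceAct (g * h * g⁻¹ * h⁻¹ : X ≃ₜ X) (J ∪ K) c := by
  funext S
  have h1 : ∀ x, (g * h * g⁻¹ * h⁻¹ : X ≃ₜ X) x = g (h (g.symm (h.symm x))) := fun x => rfl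
  by_cases hJ : J ⊆ S
  · by_cases hK : K ⊆ S
    · simp only [faceAct, hJ, hK, if_true, Finset.union_subset hJ hK, h1]
    · have : ¬ J ∪ K ⊆ S := fun h' => hK (Finset.union_subset_right h')
      simp only [faceAct, hJ, hK, if_true, if_false, this]
      simp
  · have : ¬ J ∪ K ⊆ S := fun h' => hJ (Finset.union_subset_left h')
    by_cases hK : K ⊆ S
    · simp only [faceAct, hJ, hK, if_true, if_false, this]
      simp
    · simp only [faceAct, hJ, hK, if_false, this]

theorem faceGrp_comm_half {j k : ℕ} {g h : X ≃ₜ X} (hg : g ∈ faceGrp T j) (hh : h ∈ faceGrp T k) :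
    FacePres T (j + k) (g * h * g⁻¹ * h⁻¹ : X ≃ₜ X) := by
  intro ι _ _ J hJ c hc
  obtain ⟨J1, hJ1, hc1⟩ := Finset.exists_subset_card_eq (s := J) (n := min j J.card)
    (min_le_right _ _)
  have hJK : J = J1 ∪ (J \ J1) := by rw [Finset.union_sdiff_of_subset hJ1]
  have hc2 : (J \ J1).card ≤ k := by
    rw [Finset.card_sdiff_of_subset hJ1, hc1]
    omega
  have hc3 : J1.card ≤ j := by rw [hc1]; exact min_le_left _ _
  rw [hJK, ← faceAct_comm]
  exact hg.1 ι _ hc3 _ (hh.1 ι _ hc2 _ (hg.2 ι _ hc3 _ (hh.2 ι _ hc2 _ hc)))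

theorem faceGrp_comm {j k : ℕ} {g h : X ≃ₜ X} (hg : g ∈ faceGrp T j) (hh : h ∈ faceGrp T k) :
    g * h * g⁻¹ * h⁻¹ ∈ faceGrp T (j + k) := by
  refine ⟨faceGrp_comm_half hg hh, ?_⟩
  have h1 := faceGrp_comm_half hh hg
  have h2 : (g * h * g⁻¹ * h⁻¹ : X ≃ₜ X)⁻¹ = h * g * h⁻¹ * g⁻¹ := by group
  rw [← h2, add_comm] at h1
  exact h1

theorem FacePres.eq_id {s k : ℕ} (hs : UniqCub T s) (hk : s + 1 ≤ k) {g : X → X}
    (hg : FacePres T k g) (x : X) : g x = x := by
  have h1 := hg (Fin (s + 1)) Finset.univ (by simpa using hk) _ (const_mem_Cub (T := T) x)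
  have h2 := hs _ h1 _ (const_mem_Cub (T := T) x) (fun S hS => by
    have : ¬ Finset.univ ⊆ S := fun h => hS (Finset.univ_subset_iff.1 h)
    simp [faceAct, this])
  have h3 := congrFun h2 Finset.univ
  simpa [faceAct] using h3

theorem faceGrp_eq_bot {s k : ℕ} (hs : UniqCub T s) (hk : s + 1 ≤ k) : faceGrp T k = ⊥ := by
  rw [eq_bot_iff]
  intro g hg
  rw [Subgroup.mem_bot]
  ext x
  exact hg.1.eq_id hs hk x

theorem transl_isNilpotent {s : ℕ} (hs : UniqCub T s) : Group.IsNilpotent (transl T) := by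
  rw [Subgroup.nilpotent_iff_finite_descending_central_series]
  refine ⟨s, fun n => (faceGrp T (n + 1)).subgroupOf (transl T), ⟨?_, ?_⟩, ?_⟩
  · rw [eq_top_iff]
    intro g _
    rw [Subgroup.mem_subgroupOf]
    simp only [zero_add, faceGrp_one]
    exact g.2
  · intro x n hx g
    rw [Subgroup.mem_subgroupOf] at hx ⊢
    have hg : (g : X ≃ₜ X) ∈ faceGrp T 1 := by rw [faceGrp_one]; exact g.2
    have := faceGrp_comm hx hg
    exact this
  · simp only [faceGrp_eq_bot hs le_rfl, Subgroup.bot_subgroupOf]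

end transl

section str
variable {X : Type*} [TopologicalSpace X] {T : X ≃ₜ X} [CompactSpace X] [T2Space X]

/-- elements of the structure group act on faces of codimension `s` -/
theorem IsStr.facePres (hT : IsMin T) {s : ℕ} (hs : UniqCub T s) {a : X ≃ₜ X}
    (ha : IsStr T s a) : FacePres T s a :=
  fun _ _ _ J hJ _ hc => ha.faceAct_mem hT hs J hJ hc

theorem IsStr.symm' (hT : IsMin T) {s : ℕ} (hs : UniqCub T s) {a : X ≃ₜ X}
    (ha : IsStr T s a) : IsStr T s a.symm := by
  constructor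
  · intro x
    rw [Homeomorph.symm_apply_eq, ha.1, Homeomorph.apply_symm_apply]
  · intro x
    have := vcube_symm_of_comm hT hs.distalU a.continuous ha.1 (ha.2 x) (a.symm x)
    rwa [Homeomorph.apply_symm_apply] at this

theorem IsStr.mem_faceGrp (hT : IsMin T) {s : ℕ} (hs : UniqCub T s) {a : X ≃ₜ X}
    (ha : IsStr T s a) : a ∈ faceGrp T s :=
  ⟨ha.facePres hT hs, (ha.symm' hT hs).facePres hT hs⟩

theorem IsStr.isTransl (hT : IsMin T) {s : ℕ} (h1 : 1 ≤ s) (hs : UniqCub T s) {a : X ≃ₜ X}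
    (ha : IsStr T s a) : IsTransl T a :=
  ⟨(ha.facePres hT hs).halfTransl h1, ((ha.symm' hT hs).facePres hT hs).halfTransl h1⟩

/-- translations commute with the structure group `A_s(X)` -/
theorem IsTransl.comm_str (hT : IsMin T) {s : ℕ} (_h1 : 1 ≤ s) (hs : UniqCub T s) {g a : X ≃ₜ X}
    (hg : IsTransl T g) (ha : IsStr T s a) (x : X) : g (a x) = a (g x) := by
  have hg' : g ∈ faceGrp T 1 := by rw [faceGrp_one]; exact hg
  have h1 := faceGrp_comm hg' (ha.mem_faceGrp hT hs)
  rw [faceGrp_eq_bot hs (by omega), Subgroup.mem_bot] at h1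
  have h2 : g * a = a * g := by
    rw [mul_inv_eq_one, mul_inv_eq_iff_eq_mul] at h1
    exact h1
  exact congrArg (fun f : X ≃ₜ X => f x) h2

end str

/-! ### Lie steps -/

theorem DSys.Ord.transl_isNilpotent {P : DSys} {s : ℕ} (h : P.Ord s) :
    Group.IsNilpotent (transl P.T) := MP_e326dc_an.transl_isNilpotent h.uniq

section step
variable {P P' : DSys} {l : ℕ} (L : LieStep P P' l)

theorem LieStep.isTransl_act (b : L.B) : IsTransl P.T (L.act.hom b) :=
  (L.str b).isTransl L.ord.min L.pos L.ord.uniq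

theorem LieStep.comm_act {g : P.X ≃ₜ P.X} (hg : IsTransl P.T g) (b : L.B) (x : P.X) :
    g (L.act.hom b x) = L.act.hom b (g x) :=
  hg.comm_str L.ord.min L.pos L.ord.uniq (L.str b) x

theorem LieStep.pi_act (b : L.B) (x : P.X) : L.fac.π (L.act.hom b x) = L.fac.π x :=
  ((L.fib _ _).2 ⟨b, rfl⟩).symm

/-- a homeomorphism commuting with `B` descends to a homeomorphism of the quotient -/
theorem LieStep.exists_desc {g : P.X ≃ₜ P.X}
    (hg : ∀ (b : L.B) (x : P.X), g (L.act.hom b x) = L.act.hom b (g x)) :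
    ∃ g' : P'.X ≃ₜ P'.X, ∀ x, L.fac.π (g x) = g' (L.fac.π x) := by
  have hq : Topology.IsQuotientMap L.fac.π :=
    L.fac.cont.isClosedMap.isQuotientMap L.fac.cont L.fac.surj
  have key : ∀ f : P.X ≃ₜ P.X, (∀ (b : L.B) (x : P.X), f (L.act.hom b x) = L.act.hom b (f x)) →
      ∃ f' : P'.X → P'.X, Continuous f' ∧ ∀ x, f' (L.fac.π x) = L.fac.π (f x) := by
    intro f hf
    have h1 : Function.FactorsThrough (fun x => L.fac.π (f x)) L.fac.π := by
      intro x y hxy
      obtain ⟨b, rfl⟩ := (L.fib x y).1 hxy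
      simp only [hf, L.pi_act]
    refine ⟨fun y => L.fac.π (f (Function.surjInv L.fac.surj y)), ?_, fun x => ?_⟩
    · rw [hq.continuous_iff]
      have h2 : (fun y => L.fac.π (f (Function.surjInv L.fac.surj y))) ∘ L.fac.π =
          fun x => L.fac.π (f x) := by
        funext x
        exact h1 (Function.surjInv_eq L.fac.surj (L.fac.π x))
      rw [h2]
      exact L.fac.cont.comp f.continuous
    · exact h1 (Function.surjInv_eq L.fac.surj (L.fac.π x))
  obtain ⟨u, hu, hu'⟩ := key g hg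
  obtain ⟨v, hv, hv'⟩ := key g.symm (by
    intro b x
    rw [Homeomorph.symm_apply_eq, hg, Homeomorph.apply_symm_apply])
  refine ⟨{ toFun := u, invFun := v, left_inv := ?_, right_inv := ?_, continuous_toFun := hu,
            continuous_invFun := hv }, fun x => (hu' x).symm⟩
  · intro y
    obtain ⟨x, rfl⟩ := L.fac.surj y
    rw [hu', hv', Homeomorph.symm_apply_apply]
  · intro y
    obtain ⟨x, rfl⟩ := L.fac.surj y
    rw [hv', hu', Homeomorph.apply_symm_apply]

theorem DFactor.halfTransl {Q : DSys} (f : DFactor P Q) {g : P.X → P.X}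
    (hg : HalfTransl P.T g) {g' : Q.X → Q.X} (h : ∀ x, f.π (g x) = g' (f.π x)) :
    HalfTransl Q.T g' := by
  intro ι _ _ c hc
  obtain ⟨d, hd, rfl⟩ := Cub_lift f.cont f.surj f.equi hc
  have h1 := Cub_map f.cont f.equi (hg ι d hd)
  have h2 : (fun A => f.π (pairCube d (fun S => g (d S)) A)) =
      pairCube (fun A => f.π (d A)) (fun S => g' (f.π (d S))) := by
    funext A
    by_cases hA : none ∈ A
    · rw [pairCube_of_mem hA, pairCube_of_mem hA, h]
    · rw [pairCube_of_notMem hA, pairCube_of_notMem hA]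
  rwa [h2] at h1

/-- if a translation `g` covers a homeomorphism `g'` of a factor then `g'` is a translation -/
theorem DFactor.isTransl_of_cover {Q : DSys} (f : DFactor P Q) {g : P.X ≃ₜ P.X}
    (hg : IsTransl P.T g) {g' : Q.X ≃ₜ Q.X} (h : ∀ x, f.π (g x) = g' (f.π x)) :
    IsTransl Q.T g' := by
  refine ⟨f.halfTransl hg.1 h, f.halfTransl hg.2 fun x => ?_⟩
  rw [Homeomorph.eq_symm_apply, ← h, Homeomorph.apply_symm_apply]

theorem LieStep.isTransl_of_cover {g : P.X ≃ₜ P.X}
    (hg : IsTransl P.T g) {g' : P'.X ≃ₜ P'.X} (h : ∀ x, L.fac.π (g x) = g' (L.fac.π x)) :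
    IsTransl P'.T g' := L.fac.isTransl_of_cover hg h

/-- descent of translations along a Lie step -/
theorem LieStep.transl_desc {g : P.X ≃ₜ P.X}
    (hg : g ∈ transl P.T) : ∃ g' ∈ transl P'.T, ∀ x, L.fac.π (g x) = g' (L.fac.π x) := by
  obtain ⟨g', hg'⟩ := L.exists_desc (fun b x => L.comm_act hg b x)
  exact ⟨g', L.isTransl_of_cover hg hg', hg'⟩

theorem DFactor.eq_of_cover {Q : DSys} (f : DFactor P Q) {g : P.X → P.X} {u v : Q.X ≃ₜ Q.X}
    (hu : ∀ x, f.π (g x) = u (f.π x)) (hv : ∀ x, f.π (g x) = v (f.π x)) : u = v := by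
  ext y
  obtain ⟨x, rfl⟩ := f.surj y
  rw [← hu, ← hv]

/-- descent as a homomorphism -/
theorem LieStep.exists_desc_hom :
    ∃ D : transl P.T →* transl P'.T, ∀ (g : transl P.T) x,
      L.fac.π ((g : P.X ≃ₜ P.X) x) = (D g : P'.X ≃ₜ P'.X) (L.fac.π x) := by
  choose D hD hD' using fun g : transl P.T => L.transl_desc g.2
  refine ⟨MonoidHom.mk' (fun g => ⟨D g, hD g⟩) fun g h => ?_, fun g x => hD' g x⟩
  apply Subtype.ext
  refine L.fac.eq_of_cover (g := fun x => (g * h : P.X ≃ₜ P.X) x) (hD' (g * h)) fun x => ?_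
  show L.fac.π ((g : P.X ≃ₜ P.X) ((h : P.X ≃ₜ P.X) x)) = D g (D h (L.fac.π x))
  rw [hD', hD']

end step

end MP_e326dc_an
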